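import Pool.Agent.R413.DT.Bound
import Mathlib.NumberTheory.LegendreSymbol.Basic

/-!
The zeros `q ^ (-c)` of the products of characters, for a positive proportion of the primes `ℓ`.
-/

set_option autoImplicit false
set_option maxHeartbeats 1000000

open Module

namespace Pool.Agent.R413.DT

open Pool.Agent.W313.Hyp (MI MI.deg_pos finite_deg_le)
open Pool.Agent.TH639.SN Pool.Agent.W343.BSD Pool.Agent.Y711
open Pool.Agent.Y701.CH (PosDensity PosDensity.diff PosDensity.mono)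
open Pool.Agent.TH639.SG (eq_one_of_pow)

/-- The number is real and positive. -/
def IsPos (b : ℂ) : Prop := ∃ x : ℝ, 0 < x ∧ b = (x : ℂ)

/-- The number is a power of `q`. -/
def IsPowerOf (q : ℕ) (a : ℂ) : Prop := ∃ v : ℕ, a = (q : ℂ) ^ v

/-- The number is `q ^ (-c)`. -/
def IsInversePower (q : ℕ) (z : ℂ) : Prop := ∃ c : ℕ, z * (q : ℂ) ^ c = 1

theorem exists_sqrt (b : Zb) : ∃ s : Zb, s ^ 2 = b := by
  obtain ⟨z, hz⟩ := IsAlgClosed.exists_pow_nat_eq (b : ℂ) (n := 2) two_pos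
  have hint : IsIntegral ℤ z := by
    refine IsIntegral.of_pow (n := 2) two_pos ?_
    rw [hz]
    exact b.2
  exact ⟨⟨z, hint⟩, Subtype.ext hz⟩

variable {k : Type} [Field k] [Finite k] {m : ℕ}

open Classical in
/-- **The arithmetic bound.** -/
theorem arith {N : ℕ} (hN : 0 < N) (F : MvPolynomial (Fin m) k) {A B Γ : Multiset ℂ}
    (hF : PointFormula F A B) (hAint : ∀ a ∈ A, IsIntegral ℤ a)
    (hS : PointFormula (coverPoly N F) Γ 0) :
    ∃ S : Set ℕ, PosDensity S ∧ ∀ ℓ ∈ S, ℓ.Prime ∧ IsSquare ((Nat.card k : ℕ) : ZMod ℓ) ∧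
      ∀ (n : ℕ) (k' : Type) [Field k'] [Finite k']
      [Algebra k k'], (∃ j : ℕ, finrank k k' ∣ (ℓ - 1) / 2 * ℓ ^ j) →
      ∀ (ψ χ : MulChar k' ℂ), orderOf ψ = N → χ ≠ 1 → χ ^ (ℓ ^ n) = 1 →
      ∀ G : MvPolynomial (Fin m) k', Related N F G → ∀ P : Polynomial ℂ,
      ∏ i ∈ Finset.range N, charProduct (ψ ^ i * χ) m G = (P : PowerSeries ℂ) →
        (P.roots.filter (IsInversePower (Nat.card k'))).card +
          (A.filter (IsPowerOf (Nat.card k))).card ≤
            (B.filter IsPos).card + (Γ.filter IsPos).card := by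
  obtain ⟨A', hA'⟩ := exists_liftMul A hAint
  obtain ⟨B', hB'⟩ := exists_liftMul B (integral_right hF hAint)
  obtain ⟨Γ', hΓ'⟩ := exists_liftMul Γ (integral_left hS)
  choose sq hsq using exists_sqrt
  -- the exceptional elements
  set q : ℕ := Nat.card k with hqd
  set C : Finset Zb := insert (sq (q : Zb)) ((B' + Γ').toFinset.image sq) with hC
  set V : Finset Zb := (C.image (fun c => conjZ c - c)).filter (fun v => v ≠ 0) with hV
  have hV0 : ∀ v ∈ V, v ≠ 0 := fun v hv => (Finset.mem_filter.1 hv).2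
  have hfin : {ℓ : ℕ | ℓ ≤ q + 2}.Finite := Set.finite_Iic (q + 2)
  refine ⟨_, (hom_density C V hV0).diff hfin, ?_⟩
  rintro ℓ ⟨⟨hℓ, R, _, _, ρ, hρC, hρV⟩, hℓ2⟩
  have hℓ2' : q + 2 < ℓ := by
    by_contra h
    exact hℓ2 (not_lt.1 h)
  have hfact : Fact ℓ.Prime := ⟨hℓ⟩
  have hℓne2 : ℓ ≠ 2 := by omega
  have hodd : ℓ - 1 = 2 * ((ℓ - 1) / 2) := by
    have := hℓ.eq_two_or_odd
    omega
  -- real numbers in `C`
  have hreal : ∀ c ∈ C, c ≠ 0 → ρ c ^ (ℓ - 1) = 1 → (c : ℂ).im = 0 := by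
    intro c hcC _ h2
    have h4 : ρ c ^ ℓ = ρ c := by
      have h5 : ρ c ^ ℓ = ρ c ^ (ℓ - 1) * ρ c := by
        rw [← pow_succ, Nat.sub_add_cancel hℓ.one_lt.le]
      rw [h5, h2, one_mul]
    have h6 : ρ (conjZ c - c) = 0 := by
      rw [map_sub, hρC c hcC (conjZ c) rfl, h4, sub_self]
    have h7 : conjZ c - c = 0 := by
      by_contra hne
      exact hρV _ (Finset.mem_filter.2 ⟨Finset.mem_image.2 ⟨c, hcC, rfl⟩, hne⟩) h6
    have h8 : (starRingEnd ℂ) (c : ℂ) = (c : ℂ) := by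
      have := congrArg (fun x : Zb => (x : ℂ)) (sub_eq_zero.1 h7)
      exact this
    exact Complex.conj_eq_iff_im.1 h8
  have hqℓ : ((q : ℕ) : R) ≠ 0 := by
    intro h
    have h1 := (CharP.cast_eq_zero_iff R ℓ q).1 h
    have hq0 : 0 < q := Nat.card_pos
    have := Nat.le_of_dvd hq0 h1
    omega
  have hsquare : IsSquare ((q : ℕ) : ZMod ℓ) := by
    set s : Zb := sq (q : Zb) with hs
    have hsC : s ∈ C := Finset.mem_insert_self _ _
    have hconj : conjZ s = s := by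
      apply Subtype.ext
      show (starRingEnd ℂ) (s : ℂ) = (s : ℂ)
      apply Pool.Agent.Y701.CH.conj_eq_of_sq (m := q)
      have h1 : s ^ 2 = (q : Zb) := hsq _
      have h2 := congrArg (fun x : Zb => (x : ℂ)) h1
      simpa using h2
    have h1 : ρ s ^ ℓ = ρ s := by
      have := hρC s hsC (conjZ s) rfl
      rw [hconj] at this
      exact this.symm
    have hsR : ρ s ^ 2 = ((q : ℕ) : R) := by
      rw [← map_pow, hsq, map_natCast]
    have hs0 : ρ s ≠ 0 := by
      intro h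
      rw [h, zero_pow two_ne_zero] at hsR
      exact hqℓ hsR.symm
    have h2 : ρ s ^ (ℓ - 1) = 1 := by
      have h5 : ρ s ^ ℓ = ρ s ^ (ℓ - 1) * ρ s := by
        rw [← pow_succ, Nat.sub_add_cancel hℓ.one_lt.le]
      rw [h5] at h1
      exact mul_right_cancel₀ hs0 (by rw [h1, one_mul])
    have h3 : ((q : ℕ) : R) ^ ((ℓ - 1) / 2) = 1 := by
      rw [← hsR, ← pow_mul, ← hodd, h2]
    have hq0' : ((q : ℕ) : ZMod ℓ) ≠ 0 := by
      intro h
      have h1 := (ZMod.natCast_eq_zero_iff q ℓ).1 h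
      have hq0 : 0 < q := Nat.card_pos
      have := Nat.le_of_dvd hq0 h1
      omega
    rw [ZMod.euler_criterion ℓ hq0']
    have h4 : ℓ / 2 = (ℓ - 1) / 2 := by
      have := hℓ.eq_two_or_odd
      omega
    rw [h4]
    have h5 : (ZMod.castHom (dvd_refl ℓ) R) (((q : ℕ) : ZMod ℓ) ^ ((ℓ - 1) / 2)) =
        (ZMod.castHom (dvd_refl ℓ) R) 1 := by
      rw [map_pow, map_natCast, map_one, h3]
    exact (ZMod.castHom (dvd_refl ℓ) R).injective h5
  refine ⟨hℓ, hsquare, ?_⟩
  intro n k' _ _ _ hdeg ψ χ hψ hχ1 hχ G hG P hP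
  obtain ⟨j, hj⟩ := hdeg
  obtain ⟨hq, P', hPP, hPne, hidR⟩ := reduction hN hF hS hA' hB' hΓ' hℓ ρ hψ hχ1 hχ hG hP
  set r := finrank k k' with hr
  have hfd : Module.Finite k k' := Module.Finite.of_finite
  set q' := Nat.card k' with hq'
  have hq1 : 1 < q' := Finite.one_lt_card
  have hqr : q' = q ^ r := Module.natCard_eq_pow_finrank
  have hq'0 : (q' : ℂ) ≠ 0 := by
    have : q' ≠ 0 := by omega
    exact_mod_cast this
  have h := count_zeros (r := r) (M := 1) one_ne_zero hPP hPne hidR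
    (P.roots.filter (IsInversePower q')) (Multiset.filter_le _ _) ?_
    (IsPowerOf q) IsPos ?_ ?_
  · rw [hA', hB', hΓ'] at h
    exact h
  · -- the zeros
    intro z hz
    obtain ⟨hzr, c, hzc⟩ := Multiset.mem_filter.1 hz
    have hz0 : z ≠ 0 := by
      rintro rfl
      rw [zero_mul] at hzc
      exact zero_ne_one hzc
    refine ⟨hz0, ((q' : ℕ) : Zb) ^ c, ?_, ?_⟩
    · rw [map_pow, map_natCast]
      exact (eq_inv_of_mul_eq_one_right hzc)
    · rw [map_pow, map_natCast, hq, one_pow, one_pow]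
  · -- the numbers in `A`
    intro a ha hra
    obtain ⟨v, hv⟩ := hra
    have h1 : a = ((q : ℕ) : Zb) ^ v := by
      apply zb_inj
      rw [hv, map_pow, map_natCast]
    rw [pow_one, h1, ← pow_mul, mul_comm, pow_mul, ← Nat.cast_pow, ← hqr, map_pow, map_natCast,
      hq, one_pow]
  · -- the numbers in `B` and `Γ`
    intro b hb h1
    obtain ⟨t, ht⟩ := hj
    rw [pow_one] at h1
    have h2 : ρ b ^ ((ℓ - 1) / 2) = 1 := by
      apply eq_one_of_pow (ℓ := ℓ) (m := j)
      rw [← pow_mul, ht, pow_mul, ← map_pow, h1, one_pow]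
    have hb0 : ρ b ≠ 0 := by
      intro h
      rw [map_pow, h] at h1
      have hr0 : 0 < r := finrank_pos
      rw [zero_pow hr0.ne'] at h1
      exact zero_ne_one h1
    set s : Zb := sq b with hs
    have hsC : s ∈ C := by
      rw [hC]
      exact Finset.mem_insert_of_mem (Finset.mem_image.2 ⟨b, Multiset.mem_toFinset.2 hb, rfl⟩)
    have hsb : s ^ 2 = b := hsq b
    have h3 : ρ s ^ (ℓ - 1) = 1 := by
      rw [hodd, pow_mul, ← map_pow, hsb, h2]
    have hs0 : s ≠ 0 := by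
      intro h
      rw [h, zero_pow two_ne_zero] at hsb
      apply hb0
      rw [← hsb, map_zero]
    have him := hreal s hsC hs0 h3
    refine ⟨(s : ℂ).re ^ 2, ?_, ?_⟩
    · refine lt_of_le_of_ne (sq_nonneg _) (Ne.symm (pow_ne_zero 2 ?_))
      intro hre
      apply hs0
      apply Subtype.ext
      exact Complex.ext hre him
    · have h4 : (s : ℂ) = ((s : ℂ).re : ℂ) := Complex.ext (by simp) (by simp [him])
      have h5 : algebraMap Zb ℂ b = (s : ℂ) ^ 2 := by
        rw [← hsb]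
        rfl
      rw [h5, h4]
      push_cast
      simp

end Pool.Agent.R413.DT
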