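import Pool.Agent.R413.DT.Core

/-!
The zeros of the products of characters of order a power of `ℓ` times characters of order dividing
`N`, modulo a prime above `ℓ`.
-/

set_option autoImplicit false
set_option maxHeartbeats 1000000

open Module

namespace Pool.Agent.R413.DT

open Pool.Agent.W313.Hyp (MI MI.deg_pos finite_deg_le)
open Pool.Agent.TH639.SN Pool.Agent.W343.BSD Pool.Agent.Y711
open Pool.Agent.Y701.CH (PosDensity PosDensity.diff PosDensity.mono)
open Pool.Agent.TH639.SG (eq_one_of_pow)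

/-- the complex conjugation -/
noncomputable def conjZ (x : Zb) : Zb :=
  ⟨(starRingEnd ℂ) (x : ℂ), x.2.map ((starRingEnd ℂ).toIntAlgHom)⟩

section lemmas

variable {k : Type} [Field k] [Finite k]

theorem exists_charZb (χ : MulChar k ℂ) :
    ∃ χ' : MulChar k Zb, ∀ u, algebraMap Zb ℂ (χ' u) = χ u := by
  refine exists_liftChar zb_inj χ ?_
  intro u
  by_cases hu : IsUnit u
  · have hk1 : 1 < Nat.card k := Finite.one_lt_card
    have h1 : IsIntegral ℤ (χ u) := by
      refine IsIntegral.of_pow (n := Nat.card k - 1) (by omega) ?_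
      rw [char_pow_card χ hu]
      exact isIntegral_one
    exact ⟨⟨χ u, h1⟩, rfl⟩
  · exact ⟨0, by rw [χ.map_nonunit hu, map_zero]⟩

theorem dvd_card {ℓ n : ℕ} (hℓ : ℓ.Prime) {χ : MulChar k ℂ} (h1 : χ ≠ 1)
    (h2 : χ ^ (ℓ ^ n) = 1) : ℓ ∣ Nat.card k - 1 := by
  have h3 : χ ^ (Nat.card k - 1) = 1 := by
    have hk1 : 1 < Nat.card k := Finite.one_lt_card
    apply MulChar.ext
    intro a
    rw [MulChar.pow_apply_coe, char_pow_card χ a.isUnit, MulChar.one_apply a.isUnit]
  by_contra hcon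
  have hcop : Nat.Coprime (ℓ ^ n) (Nat.card k - 1) :=
    Nat.Coprime.pow_left n ((Nat.Prime.coprime_iff_not_dvd hℓ).2 hcon)
  have h4 : orderOf χ ∣ 1 := by
    rw [← hcop]
    exact Nat.dvd_gcd (orderOf_dvd_of_pow_eq_one h2) (orderOf_dvd_of_pow_eq_one h3)
  apply h1
  rw [← orderOf_eq_one_iff]
  exact Nat.dvd_one.1 h4

theorem card_filter_map {α β : Type} (f : α → β) (p : β → Prop) (q : α → Prop)
    [DecidablePred p] [DecidablePred q] (A : Multiset α) (h : ∀ a ∈ A, p (f a) → q a) :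
    ((A.map f).filter p).card ≤ (A.filter q).card := by
  rw [Multiset.filter_map, Multiset.card_map]
  apply Multiset.card_le_card
  apply Multiset.le_filter.2
  refine ⟨Multiset.filter_le _ _, ?_⟩
  intro a ha
  rw [Multiset.mem_filter] at ha
  exact h a ha.1 ha.2

theorem card_filter_map' {α β : Type} (f : α → β) (p : β → Prop) (q : α → Prop)
    [DecidablePred p] [DecidablePred q] (A : Multiset α) (h : ∀ a ∈ A, q a → p (f a)) :
    (A.filter q).card ≤ ((A.map f).filter p).card := by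
  rw [Multiset.filter_map, Multiset.card_map]
  apply Multiset.card_le_card
  apply Multiset.le_filter.2
  refine ⟨Multiset.filter_le _ _, ?_⟩
  intro a ha
  rw [Multiset.mem_filter] at ha
  exact h a ha.1 ha.2

theorem polyOne_inv_dvd {P : Polynomial ℂ} {T : Multiset ℂ} (hT : T ≤ P.roots)
    (h0 : ∀ z ∈ T, z ≠ 0) : polyOne (T.map fun z => z⁻¹) ∣ P := by
  have h1 : (T.map fun z => Polynomial.X - Polynomial.C z).prod ∣ P :=
    (Multiset.prod_dvd_prod_of_le (Multiset.map_le_map hT)).trans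
      (Polynomial.prod_multiset_X_sub_C_dvd P)
  refine dvd_trans ?_ h1
  clear h1 hT
  induction T using Multiset.induction_on with
  | empty => simp [polyOne]
  | cons z T ih =>
    have h2 := ih (fun y hy => h0 y (Multiset.mem_cons_of_mem hy))
    have h3 : z ≠ 0 := h0 z (Multiset.mem_cons_self z T)
    have h4 : polyOne ((z ::ₘ T).map fun z => z⁻¹) =
        (1 - Polynomial.C z⁻¹ * Polynomial.X) * polyOne (T.map fun z => z⁻¹) := by
      unfold polyOne
      rw [Multiset.map_cons, Multiset.map_cons, Multiset.prod_cons]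
    rw [h4, Multiset.map_cons, Multiset.prod_cons]
    apply mul_dvd_mul _ h2
    refine ⟨Polynomial.C (-z), ?_⟩
    have h5 : Polynomial.C z⁻¹ * Polynomial.C z = 1 := by
      rw [← Polynomial.C_mul, inv_mul_cancel₀ h3, Polynomial.C_1]
    rw [Polynomial.C_neg]
    linear_combination (-Polynomial.X) * h5

end lemmas

section setup

variable {k : Type} [Field k] [Finite k] {m : ℕ}

/-- **The reduction of the product.** -/
theorem reduction {N : ℕ} (hN : 0 < N) {F : MvPolynomial (Fin m) k} {A B Γ : Multiset ℂ}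
    (hF : PointFormula F A B) (hS : PointFormula (coverPoly N F) Γ 0)
    {A' B' Γ' : Multiset Zb} (hA' : A'.map (algebraMap Zb ℂ) = A)
    (hB' : B'.map (algebraMap Zb ℂ) = B) (hΓ' : Γ'.map (algebraMap Zb ℂ) = Γ)
    {ℓ : ℕ} (hℓ : ℓ.Prime) {R : Type} [Field R] [CharP R ℓ] (ρ : Zb →+* R)
    {n : ℕ} {k' : Type} [Field k'] [Finite k'] [Algebra k k']
    {ψ χ : MulChar k' ℂ} (hψ : orderOf ψ = N) (hχ1 : χ ≠ 1) (hχ : χ ^ (ℓ ^ n) = 1)
    {G : MvPolynomial (Fin m) k'} (hG : Related N F G) {P : Polynomial ℂ}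
    (hP : ∏ i ∈ Finset.range N, charProduct (ψ ^ i * χ) m G = (P : PowerSeries ℂ)) :
    ((Nat.card k' : ℕ) : R) = 1 ∧ ∃ P' : Polynomial Zb, P'.map (algebraMap Zb ℂ) = P ∧
      P'.map ρ ≠ 0 ∧
      P'.map ρ * polyOne ((A'.map fun a => a ^ finrank k k').map ρ) =
        polyOne ((Γ'.map fun a => a ^ finrank k k').map ρ) *
          polyOne ((B'.map fun a => a ^ finrank k k').map ρ) := by
  have hfact : Fact ℓ.Prime := ⟨hℓ⟩
  set r := finrank k k' with hr
  have hfd : Module.Finite k k' := Module.Finite.of_finite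
  set q' := Nat.card k' with hq'
  have hq1 : 1 < q' := Finite.one_lt_card
  -- `q' = 1` in `R`
  have hq : ((q' : ℕ) : R) = 1 := by
    have h1 := (CharP.cast_eq_zero_iff R ℓ (q' - 1)).2 (dvd_card hℓ hχ1 hχ)
    rw [Nat.cast_sub hq1.le, Nat.cast_one, sub_eq_zero] at h1
    exact h1
  -- the characters
  obtain ⟨ψ', hψ'⟩ := exists_charZb ψ
  obtain ⟨χ', hχ'⟩ := exists_charZb χ
  have hval : ∀ (i : ℕ) (u : k'), algebraMap Zb ℂ ((ψ' ^ i * χ') u) = (ψ ^ i * χ) u := by
    intro i u
    by_cases hu : IsUnit u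
    · rw [mulChar_pow_mul _ _ _ hu, mulChar_pow_mul _ _ _ hu, map_mul, map_pow, hψ', hχ']
    · rw [MulChar.map_nonunit _ hu, MulChar.map_nonunit _ hu, map_zero]
  have hval' : ∀ (i : ℕ) (u : k'), algebraMap Zb ℂ ((ψ' ^ i) u) = (ψ ^ i) u := by
    intro i u
    by_cases hu : IsUnit u
    · obtain ⟨v, rfl⟩ := hu
      rw [MulChar.pow_apply_coe, MulChar.pow_apply_coe, map_pow, hψ']
    · rw [MulChar.map_nonunit _ hu, MulChar.map_nonunit _ hu, map_zero]
  have hρχ : ∀ u : k', u ≠ 0 → ρ (χ' u) = 1 := by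
    intro u hu
    have hu' : IsUnit u := isUnit_iff_ne_zero.2 hu
    apply eq_one_of_pow (ℓ := ℓ) (m := n)
    rw [← map_pow]
    have h1 : χ' u ^ (ℓ ^ n) = 1 := by
      apply zb_inj
      rw [map_pow, hχ', map_one, ← MulChar.pow_apply' χ (pow_pos hℓ.pos n).ne', hχ,
        MulChar.one_apply hu']
    rw [h1, map_one]
  -- the polynomial
  obtain ⟨P', hP', hPP⟩ := exists_liftPoly (f := ∏ i ∈ Finset.range N,
      charProduct (ψ' ^ i * χ') m G) zb_inj (P := P) (by
    rw [← hP, map_prod]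
    exact Finset.prod_congr rfl fun i _ => cp_map _ (hval i) G)
  have hred : ((P'.map ρ : Polynomial R) : PowerSeries R) =
      PowerSeries.map ρ (∏ i ∈ Finset.range N, charProduct (ψ' ^ i) m G) := by
    rw [Polynomial.polynomial_map_coe, ← hP', map_prod, map_prod]
    refine Finset.prod_congr rfl fun i _ => cp_congr ρ ?_ G
    intro u hu
    have hu' : IsUnit u := isUnit_iff_ne_zero.2 hu
    obtain ⟨v, rfl⟩ := hu'
    rw [mulChar_pow_mul _ _ _ v.isUnit, MulChar.pow_apply_coe, map_mul, hρχ _ hu, mul_one]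
  -- the identity over `Zb`
  have hid : (∏ i ∈ Finset.range N, charProduct (ψ' ^ i) m G) *
      prodOne (A'.map fun a => a ^ r) =
      prodOne (Γ'.map fun a => a ^ r) * prodOne (B'.map fun a => a ^ r) := by
    have hinj : Function.Injective (PowerSeries.map (algebraMap Zb ℂ)) :=
      PowerSeries.map_injective (algebraMap Zb ℂ) zb_inj
    apply hinj
    have hmm : ∀ (X : Multiset ℂ) (X' : Multiset Zb), X'.map (algebraMap Zb ℂ) = X →
        PowerSeries.map (algebraMap Zb ℂ) (prodOne (X'.map fun a => a ^ r)) =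
          prodOne (X.map fun a => a ^ r) := by
      intro X X' h
      rw [map_prodOne, ← h, Multiset.map_map, Multiset.map_map]
      congr 1
    rw [map_mul, map_mul, hmm A A' hA', hmm B B' hB', hmm Γ Γ' hΓ', map_prod,
      Finset.prod_congr rfl fun i _ => cp_map _ (hval' i) G]
    exact cover_ext hN hF hS hψ hG
  have hidR : P'.map ρ * polyOne ((A'.map fun a => a ^ r).map ρ) =
      polyOne ((Γ'.map fun a => a ^ r).map ρ) * polyOne ((B'.map fun a => a ^ r).map ρ) := by
    apply Polynomial.coe_injective R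
    rw [Polynomial.coe_mul, Polynomial.coe_mul, hred, coe_polyOne, coe_polyOne, coe_polyOne,
      ← map_prodOne, ← map_prodOne, ← map_prodOne, ← map_mul, ← map_mul, hid]
  refine ⟨hq, P', hPP, ?_, hidR⟩
  intro h
  rw [h, zero_mul] at hidR
  exact mul_ne_zero (polyOne_ne _) (polyOne_ne _) hidR.symm

open Classical in
/-- **The count of the zeros.** -/
theorem count_zeros {A' B' Γ' : Multiset Zb} {R : Type} [Field R] {ρ : Zb →+* R} {M r : ℕ}
    (hM0 : M ≠ 0) {P : Polynomial ℂ} {P' : Polynomial Zb} (hPP : P'.map (algebraMap Zb ℂ) = P)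
    (hPne : P'.map ρ ≠ 0)
    (hidR : P'.map ρ * polyOne ((A'.map fun a => a ^ r).map ρ) =
      polyOne ((Γ'.map fun a => a ^ r).map ρ) * polyOne ((B'.map fun a => a ^ r).map ρ))
    (T : Multiset ℂ) (hTP : T ≤ P.roots)
    (hT : ∀ z ∈ T, z ≠ 0 ∧ ∃ t : Zb, algebraMap Zb ℂ t = z⁻¹ ∧ ρ t ^ M = 1) (p q : ℂ → Prop)
    (hp : ∀ a ∈ A', p (algebraMap Zb ℂ a) → ρ (a ^ r) ^ M = 1)
    (hq : ∀ b ∈ B' + Γ', ρ (b ^ r) ^ M = 1 → q (algebraMap Zb ℂ b)) :
    T.card + ((A'.map (algebraMap Zb ℂ)).filter p).card ≤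
      ((B'.map (algebraMap Zb ℂ)).filter q).card + ((Γ'.map (algebraMap Zb ℂ)).filter q).card := by
  have hcu := congrArg (cu M) hidR
  rw [cu_mul M hPne (polyOne_ne _), cu_mul M (polyOne_ne _) (polyOne_ne _), cu_polyOne hM0,
    cu_polyOne hM0, cu_polyOne hM0] at hcu
  have hcard : ∀ (X' : Multiset Zb) (q : ℂ → Prop),
      ((X'.map (algebraMap Zb ℂ)).filter q).card =
        (X'.filter (fun b => q (algebraMap Zb ℂ b))).card := by
    intro X' q
    rw [Multiset.filter_map, Multiset.card_map]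
    rfl
  have hBle : (((B'.map fun a => a ^ r).map ρ).filter (fun a => a ^ M = 1)).card ≤
      ((B'.map (algebraMap Zb ℂ)).filter q).card := by
    rw [hcard B', Multiset.map_map]
    exact card_filter_map _ _ _ _ fun b hb h => hq b (Multiset.mem_add.2 (Or.inl hb)) h
  have hΓle : (((Γ'.map fun a => a ^ r).map ρ).filter (fun a => a ^ M = 1)).card ≤
      ((Γ'.map (algebraMap Zb ℂ)).filter q).card := by
    rw [hcard Γ', Multiset.map_map]
    exact card_filter_map _ _ _ _ fun b hb h => hq b (Multiset.mem_add.2 (Or.inr hb)) h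
  have hAle : ((A'.map (algebraMap Zb ℂ)).filter p).card ≤
      (((A'.map fun a => a ^ r).map ρ).filter (fun a => a ^ M = 1)).card := by
    rw [hcard A', Multiset.map_map]
    exact card_filter_map' _ _ _ _ fun b hb h => hp b hb h
  -- the zeros of `P`
  have hTint : ∀ z ∈ T.map (fun z => z⁻¹), IsIntegral ℤ z := by
    intro z hz
    obtain ⟨y, hy, rfl⟩ := Multiset.mem_map.1 hz
    obtain ⟨-, t, ht, -⟩ := hT y hy
    rw [← ht]
    exact t.2
  obtain ⟨T', hTmap⟩ := exists_liftMul (T.map fun z => z⁻¹) hTint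
  have hdvd : polyOne T' ∣ P' := by
    apply Pool.Agent.TH639.SC.dvd_of_map_dvd (algebraMap Zb ℂ) zb_inj
      (by rw [coeff_polyOne]; exact isUnit_one)
    rw [map_polyOne, hTmap, hPP]
    exact polyOne_inv_dvd hTP fun z hz => (hT z hz).1
  have hdvdR := Polynomial.map_dvd ρ hdvd
  rw [map_polyOne] at hdvdR
  have hle := cu_dvd M hdvdR hPne
  rw [cu_polyOne hM0, Multiset.filter_eq_self.2, Multiset.card_map] at hle
  · have hTc : T'.card = T.card := by
      have h1 := Multiset.card_map (algebraMap Zb ℂ) T'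
      rw [hTmap, Multiset.card_map] at h1
      exact h1.symm
    rw [hTc] at hle
    omega
  · intro x hx
    obtain ⟨t, ht, rfl⟩ := Multiset.mem_map.1 hx
    have ht1 : algebraMap Zb ℂ t ∈ T.map fun z => z⁻¹ := by
      rw [← hTmap]
      exact Multiset.mem_map_of_mem _ ht
    obtain ⟨z, hz, hzt⟩ := Multiset.mem_map.1 ht1
    obtain ⟨-, s, hs, hs1⟩ := hT z hz
    have : t = s := zb_inj (by rw [hs, hzt])
    rw [this]
    exact hs1

end setup

end Pool.Agent.R413.DT
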