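import Pool.Agent.Y701.CH.Real
import Mathlib.RingTheory.Ideal.GoingUp
import Mathlib.RingTheory.Localization.FractionRing

/-!
Primes modulo which the Frobenius acts on given algebraic integers as the complex conjugation.
-/

set_option autoImplicit false
set_option linter.all false
set_option maxHeartbeats 4000000

namespace Pool.Agent.R413.DT

open Finset Filter Topology NumberField Polynomial
open Pool.Agent.W401.Cheb Pool.Agent.TH888.B1 Pool.Agent.Y701.CH

/-- The algebraic integers in the field of complex numbers. -/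
abbrev Zb : Type := integralClosure ℤ ℂ

/-- **Reductions with Frobenius equal to the complex conjugation.** -/
theorem hom_density (C V : Finset Zb) (hV : ∀ v ∈ V, v ≠ 0) :
    PosDensity {ℓ : ℕ | ℓ.Prime ∧ ∃ (R : Type) (_ : Field R) (_ : CharP R ℓ) (ρ : Zb →+* R),
      (∀ c ∈ C, ∀ c' : Zb, (c' : ℂ) = (starRingEnd ℂ) (c : ℂ) → ρ c' = ρ c ^ ℓ) ∧
        ∀ v ∈ V, ρ v ≠ 0} := by
  classical
  -- the field
  obtain ⟨F, hF⟩ : ∃ F : ℚ[X], F = ∏ x ∈ C ∪ V, minpoly ℚ (x : ℂ) := ⟨_, rfl⟩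
  have hintQ : ∀ x : Zb, IsIntegral ℚ (x : ℂ) := fun x => x.2.tower_top
  have hF0 : F ≠ 0 := by
    rw [hF]
    exact Finset.prod_ne_zero_iff.2 fun x _ => minpoly.ne_zero (hintQ x)
  have hS : IsSplittingField ℚ F.SplittingField F := IsSplittingField.splittingField F
  have h1 : FiniteDimensional ℚ F.SplittingField := IsSplittingField.finiteDimensional _ F
  have h2 : CharZero F.SplittingField :=
    charZero_of_injective_algebraMap (algebraMap ℚ F.SplittingField).injective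
  have hnf : NumberField F.SplittingField := ⟨⟩
  have hN : Normal ℚ F.SplittingField := Normal.of_isSplittingField F
  have hG : IsGalois ℚ F.SplittingField := ⟨⟩
  set L := F.SplittingField with hL
  have hsplit : (F.map (algebraMap ℚ L)).Splits := SplittingField.splits F
  let ι : L →ₐ[ℚ] ℂ := IsAlgClosed.lift
  let _ : Algebra L ℂ := ι.toRingHom.toAlgebra
  have : IsScalarTower ℚ L ℂ := IsScalarTower.of_algebraMap_eq fun x => (ι.commutes x).symm
  let σ : Gal(L/ℚ) := (Complex.conjAe.restrictScalars ℚ).restrictNormal L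
  have hσ : ∀ x : L, ι (σ x) = (starRingEnd ℂ) (ι x) := fun x =>
    AlgEquiv.restrictNormal_commutes (Complex.conjAe.restrictScalars ℚ) L x
  have hιinj : Function.Injective ι := ι.toRingHom.injective
  -- lifts of the integers
  have hlift : ∀ x ∈ C ∪ V, ∃ y : 𝓞 L, ι (y : L) = (x : ℂ) := by
    intro x hx
    have hroot : (x : ℂ) ∈ F.rootSet ℂ := by
      rw [mem_rootSet]
      refine ⟨hF0, ?_⟩
      rw [hF, map_prod]
      exact Finset.prod_eq_zero hx (minpoly.aeval ℚ (x : ℂ))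
    rw [← hsplit.image_rootSet ι] at hroot
    obtain ⟨y, -, hy⟩ := hroot
    have hyint : IsIntegral ℤ y := by
      have h3 : IsIntegral ℤ ((ι.restrictScalars ℤ) y) := by
        show IsIntegral ℤ (ι y)
        rw [hy]
        exact x.2
      exact (isIntegral_algHom_iff (ι.restrictScalars ℤ) hιinj).1 h3
    exact ⟨⟨y, hyint⟩, hy⟩
  choose! lf hlf using hlift
  -- the finitely many primes dividing the `v`
  have hD : ∀ v ∈ V, ∃ D : ℕ, D ≠ 0 ∧ ∀ (p : ℕ) [Fact p.Prime]
      (φ : 𝓞 L →+* AlgebraicClosure (ZMod p)), ¬ p ∣ D → φ (lf v) ≠ 0 := by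
    intro v hv
    refine not_zero_hom (lf v) ?_
    intro h0
    apply hV v hv
    have h3 := hlf v (Finset.mem_union_right _ hv)
    rw [h0] at h3
    apply Subtype.ext
    rw [← h3]
    show ι (algebraMap (𝓞 L) L 0) = 0
    rw [map_zero, map_zero]
  choose! Dv hDv hDv' using hD
  have hD0 : (∏ v ∈ V, Dv v) ≠ 0 := Finset.prod_ne_zero_iff.2 fun v hv => hDv v hv
  have hfin : {p : ℕ | p ∣ ∏ v ∈ V, Dv v}.Finite := by
    apply (Set.finite_Iic (∏ v ∈ V, Dv v)).subset
    intro p hp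
    exact Nat.le_of_dvd (Nat.pos_of_ne_zero hD0) hp
  refine ((frob_density L σ).diff hfin).mono ?_
  rintro ℓ ⟨hx, hℓ⟩
  have hℓ' : ¬ ℓ ∣ ∏ v ∈ V, Dv v := hℓ
  have hprime := xp_prime hx
  have hfact : Fact ℓ.Prime := ⟨hprime⟩
  obtain ⟨φ, hφ⟩ := exists_hom σ hprime hx
  -- the extension of the homomorphism
  let j : 𝓞 L →+* Zb := ((ι : L →+* ℂ).comp (algebraMap (𝓞 L) L)).codRestrict
    (integralClosure ℤ ℂ) (fun x => by
      have h3 : IsIntegral ℤ (x : L) := x.2
      exact h3.map (ι.restrictScalars ℤ))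
  have hj : ∀ x : 𝓞 L, ((j x : Zb) : ℂ) = ι (x : L) := fun _ => rfl
  have hjinj : Function.Injective j := by
    intro x y hxy
    apply RingOfIntegers.coe_injective
    apply hιinj
    have := congrArg (fun z : Zb => (z : ℂ)) hxy
    exact this
  let _ : Algebra (𝓞 L) Zb := j.toAlgebra
  have hjalg : ∀ x : 𝓞 L, algebraMap (𝓞 L) Zb x = j x := fun _ => rfl
  have hint : Algebra.IsIntegral (𝓞 L) Zb := by
    refine ⟨fun x => ?_⟩
    have hx : IsIntegral ℤ x := Algebra.IsIntegral.isIntegral x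
    obtain ⟨p, hp, hp'⟩ := hx
    refine ⟨p.map (algebraMap ℤ (𝓞 L)), hp.map _, ?_⟩
    rw [eval₂_map]
    have h3 : (algebraMap (𝓞 L) Zb).comp (algebraMap ℤ (𝓞 L)) = algebraMap ℤ Zb :=
      RingHom.ext_int _ _
    rw [h3]
    exact hp'
  have hP : (RingHom.ker φ).IsPrime := RingHom.ker_isPrime φ
  have hker : RingHom.ker (algebraMap (𝓞 L) Zb) ≤ RingHom.ker φ := by
    intro x hx
    rw [RingHom.mem_ker] at hx
    have h3 : x = 0 := hjinj (by rw [← hjalg, hx, map_zero])
    rw [h3]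
    exact Ideal.zero_mem _
  obtain ⟨Q, hQ, hQP⟩ := Ideal.exists_ideal_over_prime_of_isIntegral_of_isDomain
    (S := Zb) (RingHom.ker φ) hker
  have hρ0 : ∀ x : 𝓞 L, j x ∈ Q ↔ φ x = 0 := by
    intro x
    rw [← RingHom.mem_ker, ← hQP, Ideal.mem_comap, hjalg]
  let ρ : Zb →+* FractionRing (Zb ⧸ Q) :=
    (algebraMap (Zb ⧸ Q) (FractionRing (Zb ⧸ Q))).comp (Ideal.Quotient.mk Q)
  have hρ : ∀ x : Zb, ρ x = 0 ↔ x ∈ Q := by
    intro x
    show algebraMap (Zb ⧸ Q) (FractionRing (Zb ⧸ Q)) (Ideal.Quotient.mk Q x) = 0 ↔ _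
    rw [map_eq_zero_iff _ (IsFractionRing.injective (Zb ⧸ Q) (FractionRing (Zb ⧸ Q))),
      Ideal.Quotient.eq_zero_iff_mem]
  have hchar : ((ℓ : ℕ) : FractionRing (Zb ⧸ Q)) = 0 := by
    have h3 : φ ((ℓ : ℕ) : 𝓞 L) = 0 := by
      rw [map_natCast]
      exact CharP.cast_eq_zero (AlgebraicClosure (ZMod ℓ)) ℓ
    have h4 := (hρ _).2 ((hρ0 _).2 h3)
    rw [map_natCast, map_natCast] at h4
    exact h4
  have hCP : CharP (FractionRing (Zb ⧸ Q)) ℓ := (CharP.charP_iff_prime_eq_zero hprime).2 hchar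
  refine ⟨hprime, FractionRing (Zb ⧸ Q), inferInstance, hCP, ρ, ?_, ?_⟩
  · intro c hc c' hc'
    have h3 := hlf c (Finset.mem_union_left _ hc)
    have h4 : j (lf c) = c := Subtype.ext h3
    have h5 : j (σ • lf c) = c' := by
      apply Subtype.ext
      rw [hc', ← h3]
      exact hσ _
    have h6 : φ (σ • lf c - lf c ^ ℓ) = 0 := by
      rw [map_sub, map_pow, hφ, sub_self]
    have h7 := (hρ _).2 ((hρ0 _).2 h6)
    rw [map_sub, map_pow, h4, h5, map_sub, map_pow, sub_eq_zero] at h7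
    exact h7
  · intro v hv h0
    have h3 := hlf v (Finset.mem_union_right _ hv)
    have h4 : j (lf v) = v := Subtype.ext h3
    rw [← h4, hρ, hρ0] at h0
    refine hDv' v hv ℓ φ ?_ h0
    intro hd
    exact hℓ' (hd.trans (Finset.dvd_prod_of_mem _ hv))

end Pool.Agent.R413.DT
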