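import Pool.Agent.R413.DT.Gal
import Pool.Agent.R413.DT.Hom

/-!
The bound for the zeros of the products of characters of order a power of `ℓ` times characters of
order dividing `N`, for a positive proportion of the primes `ℓ`.
-/

set_option autoImplicit false
set_option maxHeartbeats 1000000

open Module

namespace Pool.Agent.R413.DT

open Pool.Agent.W313.Hyp (MI MI.deg_pos finite_deg_le)
open Pool.Agent.TH639.SN Pool.Agent.W343.BSD Pool.Agent.Y711
open Pool.Agent.Y701.CH (PosDensity)

section poly

variable {R S : Type} [CommRing R] [CommRing S]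

/-- The product of the `1 - a X`. -/
noncomputable def polyOne (A : Multiset R) : Polynomial R :=
  (A.map fun a => 1 - Polynomial.C a * Polynomial.X).prod

theorem coe_polyOne (A : Multiset R) : (polyOne A : PowerSeries R) = prodOne A := by
  unfold polyOne prodOne
  induction A using Multiset.induction_on with
  | empty => simp
  | cons a A ih =>
    rw [Multiset.map_cons, Multiset.map_cons, Multiset.prod_cons, Multiset.prod_cons,
      Polynomial.coe_mul, ih, Polynomial.coe_sub, Polynomial.coe_mul, Polynomial.coe_C,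
      Polynomial.coe_X, Polynomial.coe_one]

theorem map_polyOne (φ : R →+* S) (A : Multiset R) :
    (polyOne A).map φ = polyOne (A.map φ) := by
  unfold polyOne
  rw [Polynomial.map_multiset_prod, Multiset.map_map, Multiset.map_map]
  congr 1
  refine Multiset.map_congr rfl fun a _ => ?_
  rw [Function.comp_apply, Function.comp_apply, Polynomial.map_sub, Polynomial.map_one,
    Polynomial.map_mul, Polynomial.map_C, Polynomial.map_X]

theorem map_prodOne (φ : R →+* S) (A : Multiset R) :
    PowerSeries.map φ (prodOne A) = prodOne (A.map φ) := by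
  rw [← coe_polyOne, ← Polynomial.polynomial_map_coe, map_polyOne, coe_polyOne]

theorem coeff_polyOne (A : Multiset R) : (polyOne A).coeff 0 = 1 := by
  rw [Polynomial.coeff_zero_eq_eval_zero]
  unfold polyOne
  rw [Polynomial.eval_multiset_prod, Multiset.map_map]
  apply Multiset.prod_eq_one
  intro x hx
  obtain ⟨a, -, rfl⟩ := Multiset.mem_map.1 hx
  simp

theorem polyOne_ne [Nontrivial R] (A : Multiset R) : polyOne A ≠ 0 := by
  intro h
  have := coeff_polyOne A
  rw [h, Polynomial.coeff_zero] at this
  exact zero_ne_one this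

end poly

section roots

variable {R : Type} [Field R]

open Classical in
/-- The number of the roots with `M`-th power one. -/
noncomputable def cu (M : ℕ) (f : Polynomial R) : ℕ := (f.roots.filter (fun z => z ^ M = 1)).card

theorem cu_mul (M : ℕ) {f g : Polynomial R} (hf : f ≠ 0) (hg : g ≠ 0) :
    cu M (f * g) = cu M f + cu M g := by
  classical
  unfold cu
  rw [Polynomial.roots_mul (mul_ne_zero hf hg), Multiset.filter_add, Multiset.card_add]

theorem cu_dvd (M : ℕ) {f g : Polynomial R} (h : f ∣ g) (hg : g ≠ 0) : cu M f ≤ cu M g := by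
  obtain ⟨u, rfl⟩ := h
  rw [cu_mul M (left_ne_zero_of_mul hg) (right_ne_zero_of_mul hg)]
  exact Nat.le_add_right _ _

open Classical in
theorem cu_polyOne {M : ℕ} (hM : M ≠ 0) (A : Multiset R) :
    cu M (polyOne A) = (A.filter (fun a => a ^ M = 1)).card := by
  induction A using Multiset.induction_on with
  | empty =>
    unfold cu polyOne
    simp
  | cons a A ih =>
    have h1 : polyOne (a ::ₘ A) = (1 - Polynomial.C a * Polynomial.X) * polyOne A := by
      unfold polyOne
      rw [Multiset.map_cons, Multiset.prod_cons]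
    have hne : (1 - Polynomial.C a * Polynomial.X : Polynomial R) ≠ 0 := by
      intro h
      have := congrArg (fun p => Polynomial.coeff p 0) h
      simp at this
    rw [h1, cu_mul M hne (polyOne_ne A), ih, Multiset.filter_cons, Multiset.card_add]
    congr 1
    by_cases ha : a = 0
    · subst ha
      rw [if_neg (by rw [zero_pow hM]; exact zero_ne_one)]
      unfold cu
      simp
    · have h2 : (1 - Polynomial.C a * Polynomial.X : Polynomial R) =
          Polynomial.C (-a) * (Polynomial.X - Polynomial.C a⁻¹) := by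
        rw [mul_sub, ← Polynomial.C_mul, neg_mul, mul_inv_cancel₀ ha, Polynomial.C_neg,
          Polynomial.C_neg, Polynomial.C_1]
        ring
      unfold cu
      rw [h2, Polynomial.roots_C_mul _ (neg_ne_zero.2 ha), Polynomial.roots_X_sub_C]
      by_cases h3 : a ^ M = 1
      · have h4 : a⁻¹ ^ M = 1 := by rw [inv_pow, h3, inv_one]
        rw [if_pos h3, Multiset.filter_singleton, if_pos h4]
        rfl
      · have h4 : ¬ a⁻¹ ^ M = 1 := by
          rw [inv_pow, inv_eq_one]
          exact h3
        rw [if_neg h3, Multiset.filter_singleton, if_neg h4]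
        rfl

end roots

section integral

theorem zb_inj : Function.Injective (algebraMap Zb ℂ) := Subtype.val_injective

theorem exists_liftMul (A : Multiset ℂ) (h : ∀ a ∈ A, IsIntegral ℤ a) :
    ∃ A' : Multiset Zb, A'.map (algebraMap Zb ℂ) = A := by
  induction A using Multiset.induction_on with
  | empty => exact ⟨0, rfl⟩
  | cons a A ih =>
    obtain ⟨A', hA'⟩ := ih (fun b hb => h b (Multiset.mem_cons_of_mem hb))
    exact ⟨⟨a, h a (Multiset.mem_cons_self a A)⟩ ::ₘ A', by rw [Multiset.map_cons, hA']; rfl⟩

theorem integral_of_poly {B : Multiset ℂ} {P' : Polynomial Zb}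
    (h : P'.map (algebraMap Zb ℂ) = polyOne B) : ∀ b ∈ B, IsIntegral ℤ b := by
  intro b hb
  by_cases hb0 : b = 0
  · rw [hb0]
    exact isIntegral_zero
  have hev : (polyOne B).eval b⁻¹ = 0 := by
    unfold polyOne
    rw [Polynomial.eval_multiset_prod, Multiset.map_map]
    apply Multiset.prod_eq_zero
    rw [Multiset.mem_map]
    refine ⟨b, hb, ?_⟩
    simp [hb0]
  have hc0 : P'.coeff 0 = 1 := by
    apply zb_inj
    rw [← Polynomial.coeff_map, h, coeff_polyOne, map_one]
  have hmon : P'.reverse.Monic := by
    rw [Polynomial.Monic, Polynomial.reverse_leadingCoeff, Polynomial.trailingCoeff,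
      Polynomial.natTrailingDegree_eq_zero_of_constantCoeff_ne_zero, hc0]
    rw [Polynomial.constantCoeff_apply, hc0]
    exact one_ne_zero
  have hinv : b⁻¹ ≠ 0 := inv_ne_zero hb0
  let _ : Invertible b⁻¹ := invertibleOfNonzero hinv
  have h1 := Polynomial.eval₂_reverse_mul_pow (algebraMap Zb ℂ) b⁻¹ P'
  rw [← Polynomial.eval_map (p := P'), h, hev, invOf_eq_inv, inv_inv] at h1
  have h2 : Polynomial.eval₂ (algebraMap Zb ℂ) b P'.reverse = 0 :=
    (mul_eq_zero.1 h1).resolve_right (pow_ne_zero _ hinv)
  have h3 : IsIntegral Zb b := ⟨P'.reverse, hmon, h2⟩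
  exact isIntegral_trans (R := ℤ) b h3

variable {k : Type} [Field k] [Finite k] {m : ℕ}

theorem zetaInv_const (F : MvPolynomial (Fin m) k) :
    PowerSeries.constantCoeff (zetaInv m F) = 1 := by
  classical
  have h1 := (isGh_weight F (fun u : k => if u = 0 then (1 : ℂ) else 0) (by
    intro u j hj
    by_cases hu : u = 0
    · rw [hu, zero_pow hj, if_pos rfl, one_pow]
    · rw [if_neg hu, if_neg (pow_ne_zero j hu), zero_pow hj])).1
  rw [← zetaInv_eq (R := ℂ) F] at h1
  have h2 : PowerSeries.constantCoeff (PowerSeries.map (Int.castRingHom ℂ) (zetaInv m F)) =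
      Int.castRingHom ℂ (PowerSeries.constantCoeff (zetaInv m F)) := by
    rw [← PowerSeries.coeff_zero_eq_constantCoeff_apply, PowerSeries.coeff_map,
      PowerSeries.coeff_zero_eq_constantCoeff_apply]
  rw [h2] at h1
  have h3 : ((PowerSeries.constantCoeff (zetaInv m F) : ℤ) : ℂ) = ((1 : ℤ) : ℂ) := by
    rw [Int.cast_one]
    exact h1
  exact Int.cast_injective h3

theorem int_zb : (algebraMap Zb ℂ).comp (Int.castRingHom Zb) = Int.castRingHom ℂ :=
  RingHom.ext_int _ _

theorem integral_right {F : MvPolynomial (Fin m) k} {A B : Multiset ℂ} (h : PointFormula F A B)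
    (hA : ∀ a ∈ A, IsIntegral ℤ a) : ∀ b ∈ B, IsIntegral ℤ b := by
  obtain ⟨A', hA'⟩ := exists_liftMul A hA
  have hu : IsUnit (zetaInv m F) := by
    rw [PowerSeries.isUnit_iff_constantCoeff, zetaInv_const]
    exact isUnit_one
  obtain ⟨Z, hZ⟩ := hu.exists_right_inv
  have h1 := zeta_formula F h
  have h2 : PowerSeries.map (algebraMap Zb ℂ)
      (PowerSeries.map (Int.castRingHom Zb) Z * prodOne A') = (polyOne B : PowerSeries ℂ) := by
    rw [map_mul, map_prodOne, hA', ← h1, coe_polyOne]
    have h3 : PowerSeries.map (algebraMap Zb ℂ) (PowerSeries.map (Int.castRingHom Zb) Z) =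
        PowerSeries.map (Int.castRingHom ℂ) Z := by
      ext n
      simp
    rw [h3, ← mul_assoc, ← map_mul, mul_comm Z, hZ, map_one, one_mul]
  obtain ⟨P', -, hP'⟩ := exists_liftPoly zb_inj h2
  exact integral_of_poly hP'

theorem integral_left {F : MvPolynomial (Fin m) k} {A : Multiset ℂ} (h : PointFormula F A 0) :
    ∀ a ∈ A, IsIntegral ℤ a := by
  have h1 := zeta_formula F h
  have h2 : PowerSeries.map (algebraMap Zb ℂ)
      (PowerSeries.map (Int.castRingHom Zb) (zetaInv m F)) = (polyOne A : PowerSeries ℂ) := by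
    rw [coe_polyOne, ← h1]
    have h4 : prodOne (0 : Multiset ℂ) = 1 := by
      unfold prodOne
      simp
    rw [h4, mul_one]
    ext n
    simp
  obtain ⟨P', -, hP'⟩ := exists_liftPoly zb_inj h2
  exact integral_of_poly hP'

end integral

section ext

variable {k : Type} [Field k] [Finite k] {k' : Type} [Field k'] [Finite k'] [Algebra k k'] {m : ℕ}

/-- At every point the values of `G` and `F` differ by the `N`-th power of a unit. -/
def Related (N : ℕ) (F : MvPolynomial (Fin m) k) (G : MvPolynomial (Fin m) k') : Prop :=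
  ∀ (E : Type) [Field E] [Finite E] [Algebra k' E] (x : Fin m → E), ∃ c : E, c ≠ 0 ∧
    MvPolynomial.aeval x G = c ^ N * MvPolynomial.aeval x (MvPolynomial.map (algebraMap k k') F)

omit [Finite k] [Finite k'] in
theorem aeval_tower {E : Type} [Field E] [Algebra k' E] [Algebra k E] [IsScalarTower k k' E]
    (F : MvPolynomial (Fin m) k) (x : Fin m → E) :
    MvPolynomial.aeval x (MvPolynomial.map (algebraMap k k') F) = MvPolynomial.aeval x F :=
  MvPolynomial.aeval_map_algebraMap k' x F

theorem card_zero {N : ℕ} {F : MvPolynomial (Fin m) k} {G : MvPolynomial (Fin m) k'}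
    (h : Related N F G) (E : Type) [Field E] [Finite E] [Algebra k' E] [Algebra k E]
    [IsScalarTower k k' E] :
    Nat.card {x : Fin m → E // MvPolynomial.aeval x G = 0} =
      Nat.card {x : Fin m → E // MvPolynomial.aeval x F = 0} := by
  refine Nat.card_congr (Equiv.subtypeEquivRight fun x => ?_)
  obtain ⟨c, hc, hx⟩ := h E x
  rw [hx, aeval_tower, mul_eq_zero]
  constructor
  · exact fun h => h.resolve_left (pow_ne_zero N hc)
  · exact fun h => Or.inr h

theorem card_cover_eq {N : ℕ} {F : MvPolynomial (Fin m) k} {G : MvPolynomial (Fin m) k'}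
    (h : Related N F G) (E : Type) [Field E] [Finite E] [Algebra k' E] [Algebra k E]
    [IsScalarTower k k' E] :
    Nat.card {z : Fin (m + 1) → E // MvPolynomial.aeval z (coverPoly N G) = 0} =
      Nat.card {z : Fin (m + 1) → E // MvPolynomial.aeval z (coverPoly N F) = 0} := by
  have : Fintype E := Fintype.ofFinite E
  rw [card_cover N G, card_cover N F]
  refine Finset.sum_congr rfl fun x _ => ?_
  obtain ⟨c, hc, hx⟩ := h E x
  rw [hx, aeval_tower]
  refine Nat.card_congr ⟨fun w => ⟨w.1 / c, ?_⟩, fun w => ⟨w.1 * c, ?_⟩,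
    fun w => Subtype.ext (div_mul_cancel₀ _ hc), fun w => Subtype.ext (mul_div_cancel_right₀ _ hc)⟩
  · rw [div_pow, w.2, mul_div_cancel_left₀ _ (pow_ne_zero N hc)]
  · rw [mul_pow, w.2, mul_comm]

/-- **The product of the characters of order dividing `N` over the extension.** -/
theorem cover_ext {N : ℕ} (hN : 0 < N) {F : MvPolynomial (Fin m) k} {A B Γ : Multiset ℂ}
    (hF : PointFormula F A B) (hS : PointFormula (coverPoly N F) Γ 0)
    {ψ : MulChar k' ℂ} (hψ : orderOf ψ = N) {G : MvPolynomial (Fin m) k'} (hG : Related N F G) :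
    (∏ i ∈ Finset.range N, charProduct (ψ ^ i) m G) *
        prodOne (A.map fun a => a ^ finrank k k') =
      prodOne (Γ.map fun a => a ^ finrank k k') * prodOne (B.map fun a => a ^ finrank k k') := by
  have h1 := cover_formula hN hψ G
  have h2 := zeta_formula G (hF.ext (G := G) (fun E _ _ _ _ _ => card_zero hG E))
  have h3 := zeta_formula (coverPoly N G)
    (hS.ext (G := coverPoly N G) (fun E _ _ _ _ _ => card_cover_eq hG E))
  have h4 : prodOne (0 : Multiset ℂ) = 1 := by
    unfold prodOne
    simp
  rw [Multiset.map_zero, h4, mul_one] at h3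
  rw [← h2, ← mul_assoc, h1, h3]

end ext

end Pool.Agent.R413.DT
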