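import Pool.Agent.TH639.SN.Main
import Pool.Agent.Y709.ClPt
import Pool.Agent.Y709.Log
import Pool.Agent.Y711.Gh
import Pool.Agent.Y784.FC.B
import Mathlib.RingTheory.Norm.Transitivity

/-!
Sums over the points of affine space over a finite extension, arranged according to closed points.
-/

set_option autoImplicit false
set_option maxHeartbeats 1000000

open Module

namespace Pool.Agent.R413.DT

open Pool.Agent.W313.Hyp (MI MI.deg_pos finite_deg_le)
open Pool.Agent.TH639.SN Pool.Agent.W343.BSD

section count

/-- The sum over the closed points whose degree divides `n`. -/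
noncomputable def cnt {A : Type} [AddCommMonoid A] (m : ℕ) (F : Type) [Field F] [Finite F]
    (G : MvPolynomial (Fin m) F) (W : F → A) (n : ℕ) : A :=
  ∑ z ∈ (finite_le m F n).toFinset, if deg m F z ∣ n then
    deg m F z • W (normValue m F G z ^ (n / deg m F z)) else 0

theorem finrank_Res {F : Type} [Field F] (P : ClosedPt F) :
    finrank F (Res P) = P.1.natDegree := by
  have h : finrank F (AdjoinRoot P.1) = P.1.natDegree := by
    rw [(AdjoinRoot.powerBasis P.2.2.ne_zero).finrank, AdjoinRoot.powerBasis_dim]
  exact h

/-- The embedding of the residue field. -/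
noncomputable def emb {F E : Type} [Field F] [Field E] [Algebra F E] {P : ClosedPt F} {x : E}
    (hx : Polynomial.aeval x P.1 = 0) : Res P →+* E :=
  AdjoinRoot.lift (algebraMap F E) x hx

theorem emb_coord {F E : Type} [Field F] [Field E] [Algebra F E] {P : ClosedPt F} {x : E}
    (hx : Polynomial.aeval x P.1 = 0) : emb hx (coord P) = x :=
  AdjoinRoot.lift_root (i := algebraMap F E) hx

theorem emb_of {F E : Type} [Field F] [Field E] [Algebra F E] {P : ClosedPt F} {x : E}
    (hx : Polynomial.aeval x P.1 = 0) (c : F) :
    emb hx (algebraMap F (Res P) c) = algebraMap F E c :=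
  AdjoinRoot.lift_of (i := algebraMap F E) (h := hx) (x := c)

theorem sum_points {A : Type} [AddCommMonoid A] : ∀ (m : ℕ) (F : Type) [Field F] [Finite F]
    (E : Type) [Field E] [Fintype E] [Algebra F E] (n : ℕ), finrank F E = n →
    ∀ (G : MvPolynomial (Fin m) F) (W : F → A),
      ∑ x : Fin m → E, W (Algebra.norm F (MvPolynomial.aeval x G)) = cnt m F G W n
  | 0, F, _, _, E, _, _, _, n, hn, G, W => by
    have hfin : Module.Finite F E := Module.Finite.of_finite
    have hn0 : 0 < n := by rw [← hn]; exact finrank_pos
    rw [Fintype.sum_unique, MvPolynomial.eq_C_of_isEmpty G, MvPolynomial.aeval_C,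
      Algebra.norm_algebraMap, hn]
    unfold cnt
    have h1 : (finite_le 0 F n).toFinset = ({(show SpacePt 0 F from ())} : Finset (SpacePt 0 F)) := by
      ext z
      rw [Set.Finite.mem_toFinset, Finset.mem_singleton]
      exact ⟨fun _ => rfl, fun _ => hn0⟩
    rw [h1]
    refine Eq.trans ?_ (Finset.sum_singleton (f := fun z : SpacePt 0 F => if deg 0 F z ∣ n then
      deg 0 F z • W (normValue 0 F _ z ^ (n / deg 0 F z)) else 0)
      (a := (show SpacePt 0 F from ()))).symm
    show _ = if 1 ∣ n then 1 • W ((MvPolynomial.constantCoeff _) ^ (n / 1)) else 0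
    rw [if_pos (one_dvd _), one_smul, Nat.div_one, MvPolynomial.constantCoeff_C]
  | m + 1, F, _, _, E, _, _, _, n, hn, G, W => by
    classical
    have hfin : Module.Finite F E := Module.Finite.of_finite
    have hn0 : 0 < n := by rw [← hn]; exact finrank_pos
    have hRes : ∀ P : ClosedPt F, Finite (Res P) := finRes
    have hFree : ∀ P : ClosedPt F, Module.Free F (Res P) := fun P => by
      have h : Module.Free F (AdjoinRoot P.1) :=
        Module.Free.of_basis (AdjoinRoot.powerBasis P.2.2.ne_zero).basis
      exact h
    -- the sum over the first coordinate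
    have h1 : ∑ x : Fin (m + 1) → E, W (Algebra.norm F (MvPolynomial.aeval x G)) =
        ∑ θ : E, ∑ y : Fin m → E, W (Algebra.norm F (MvPolynomial.aeval
          (Fin.cons θ y : Fin (m + 1) → E) G)) := by
      rw [← Fintype.sum_prod_type', ← (Fin.consEquiv (fun _ : Fin (m + 1) => E)).sum_comp]
      rfl
    rw [h1, Pool.Agent.Y709.sum_closed hn _ (fun P => cnt m (Res P) (specialize P G)
      (fun u => W (Algebra.norm F u)) (n / P.1.natDegree))]
    · unfold cnt
      have h2 : ∑ P ∈ (finite_deg_le (F := F) n).toFinset,
          (if P.1.natDegree ∣ n then P.1.natDegree •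
            ∑ z ∈ (finite_le m (Res P) (n / P.1.natDegree)).toFinset,
              (if deg m (Res P) z ∣ n / P.1.natDegree then deg m (Res P) z •
                W (Algebra.norm F (normValue m (Res P) (specialize P G) z ^
                  (n / P.1.natDegree / deg m (Res P) z))) else 0) else 0) =
          ∑ P ∈ (finite_deg_le (F := F) n).toFinset,
            ∑ z ∈ (finite_le m (Res P) (n / P.1.natDegree)).toFinset,
              (if deg (m + 1) F ⟨P, z⟩ ∣ n then deg (m + 1) F ⟨P, z⟩ •
                W (normValue (m + 1) F G ⟨P, z⟩ ^ (n / deg (m + 1) F ⟨P, z⟩)) else 0) := by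
        refine Finset.sum_congr rfl fun P hP => ?_
        have hdeg : ∀ z : SpacePt m (Res P), deg (m + 1) F ⟨P, z⟩ =
            P.1.natDegree * deg m (Res P) z := fun _ => rfl
        split_ifs with hd
        · rw [Finset.smul_sum]
          refine Finset.sum_congr rfl fun z _ => ?_
          have hiff : deg (m + 1) F ⟨P, z⟩ ∣ n ↔ deg m (Res P) z ∣ n / P.1.natDegree := by
            rw [hdeg, Nat.dvd_div_iff_mul_dvd hd]
          by_cases hz : deg m (Res P) z ∣ n / P.1.natDegree
          · rw [if_pos hz, if_pos (hiff.2 hz), smul_smul, hdeg, Nat.div_div_eq_div_mul, map_pow]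
            rfl
          · rw [if_neg hz, if_neg (fun h => hz (hiff.1 h)), smul_zero]
        · symm
          refine Finset.sum_eq_zero fun z _ => ?_
          rw [if_neg]
          intro h
          exact hd ((Dvd.intro _ rfl).trans h)
      refine h2.trans ?_
      rw [← Finset.sum_sigma (finite_deg_le (F := F) n).toFinset
        (fun P => (finite_le m (Res P) (n / P.1.natDegree)).toFinset)
        (fun z : (Σ P : ClosedPt F, SpacePt m (Res P)) => (if deg (m + 1) F z ∣ n then
          deg (m + 1) F z • W (normValue (m + 1) F G z ^ (n / deg (m + 1) F z)) else 0))]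
      apply Finset.sum_subset
      · rintro ⟨P, z⟩ hz
        rw [Finset.mem_sigma, Set.Finite.mem_toFinset, Set.Finite.mem_toFinset] at hz
        refine (Set.Finite.mem_toFinset (finite_le (m + 1) F n)).2 ?_
        have h3 : P.1.natDegree ≤ n := hz.1
        have h4 : deg m (Res P) z ≤ n / P.1.natDegree := hz.2
        show P.1.natDegree * deg m (Res P) z ≤ n
        exact (Nat.mul_le_mul_left _ h4).trans (Nat.mul_div_le _ _)
      · rintro ⟨P, z⟩ _ hz
        rw [if_neg]
        intro h
        apply hz
        have h' : P.1.natDegree * deg m (Res P) z ∣ n := h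
        have hd : P.1.natDegree ∣ n := (Dvd.intro _ rfl).trans h'
        rw [Finset.mem_sigma, Set.Finite.mem_toFinset, Set.Finite.mem_toFinset]
        refine ⟨Nat.le_of_dvd hn0 hd, ?_⟩
        show deg m (Res P) z ≤ n / P.1.natDegree
        apply Nat.le_of_dvd (Nat.div_pos (Nat.le_of_dvd hn0 hd) (MI.deg_pos P))
        rwa [Nat.dvd_div_iff_mul_dvd hd]
    · intro P θ hθ
      let _ : Algebra (Res P) E := (emb hθ).toAlgebra
      have hT : IsScalarTower F (Res P) E :=
        IsScalarTower.of_algebraMap_eq fun c => (emb_of hθ c).symm
      have hfr : finrank (Res P) E = n / P.1.natDegree := by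
        have h1 := Module.finrank_mul_finrank F (Res P) E
        rw [finrank_Res, hn] at h1
        rw [← h1, Nat.mul_div_cancel_left _ (MI.deg_pos P)]
      rw [← sum_points m (Res P) E _ hfr]
      refine Finset.sum_congr rfl fun y _ => ?_
      have h2 : MvPolynomial.aeval y (specialize P G) =
          MvPolynomial.aeval (Fin.cons θ y : Fin (m + 1) → E) G := by
        have h3 : ((MvPolynomial.aeval y : MvPolynomial (Fin m) (Res P) →ₐ[Res P] E) :
            MvPolynomial (Fin m) (Res P) →+* E).comp (specialize P) =
            ((MvPolynomial.aeval (Fin.cons θ y : Fin (m + 1) → E) :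
              MvPolynomial (Fin (m + 1)) F →ₐ[F] E) : MvPolynomial (Fin (m + 1)) F →+* E) := by
          apply MvPolynomial.ringHom_ext
          · intro c
            unfold specialize
            simp only [RingHom.comp_apply, MvPolynomial.eval₂Hom_C, RingHom.coe_coe,
              MvPolynomial.aeval_C]
            exact emb_of hθ c
          · intro i
            unfold specialize
            simp only [RingHom.comp_apply, MvPolynomial.eval₂Hom_X', RingHom.coe_coe,
              MvPolynomial.aeval_X]
            refine Fin.cases ?_ (fun i => ?_) i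
            · rw [Fin.cons_zero, Fin.cons_zero, MvPolynomial.aeval_C]
              exact emb_coord hθ
            · rw [Fin.cons_succ, Fin.cons_succ, MvPolynomial.aeval_X]
        exact congrArg (fun f => f G) h3
      have hfd : Module.Finite (Res P) E := Module.Finite.of_finite
      rw [h2, Algebra.norm_norm]

end count

end Pool.Agent.R413.DT
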