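import Pool.Agent.R413.DT.Zeta
import Mathlib.RingTheory.RootsOfUnity.Basic
import Mathlib.GroupTheory.Index

/-!
The product of the characters of order dividing `N` and the covering `w ^ N = G`.
-/

set_option autoImplicit false
set_option maxHeartbeats 1000000

open Module

namespace Pool.Agent.R413.DT

open Pool.Agent.W313.Hyp (MI MI.deg_pos finite_deg_le)
open Pool.Agent.TH639.SN Pool.Agent.W343.BSD Pool.Agent.Y711

section roots

variable {k : Type} [Field k] [Finite k] {E : Type} [Field E] [Finite E] [Algebra k E]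

/-- the character of the extension -/
noncomputable def theta (ψ : MulChar k ℂ) (E : Type) [Field E] [Algebra k E] : Eˣ →* ℂˣ :=
  ψ.toUnitHom.comp (Units.map (Algebra.norm k))

theorem theta_coe (ψ : MulChar k ℂ) (u : Eˣ) :
    ((theta ψ E u : ℂˣ) : ℂ) = ψ (Algebra.norm k (u : E)) := by
  unfold theta
  rw [MonoidHom.comp_apply, MulChar.coe_toUnitHom]
  rfl

theorem order_le_range (ψ : MulChar k ℂ) : orderOf ψ ≤ Nat.card (theta ψ E).range := by
  have hsurj : Function.Surjective (Units.map (Algebra.norm k) : Eˣ →* kˣ) :=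
    FiniteField.unitsMap_norm_surjective k E
  have hr : (theta ψ E).range = ψ.toUnitHom.range := by
    unfold theta
    rw [MonoidHom.range_comp, MonoidHom.range_eq_top.2 hsurj, ← MonoidHom.range_eq_map]
  have hfin : Finite kˣ := inferInstance
  have hfr : Finite ψ.toUnitHom.range :=
    Finite.of_surjective ψ.toUnitHom.rangeRestrict ψ.toUnitHom.rangeRestrict_surjective
  rw [hr]
  apply Nat.le_of_dvd Nat.card_pos
  apply orderOf_dvd_of_pow_eq_one
  apply MulChar.ext
  intro u
  rw [MulChar.pow_apply_coe, MulChar.one_apply u.isUnit, ← MulChar.coe_toUnitHom ψ u,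
    ← Units.val_pow_eq_pow_val, ← Units.val_one]
  congr 1
  have h3 : (⟨ψ.toUnitHom u, ⟨u, rfl⟩⟩ : ψ.toUnitHom.range) ^ Nat.card ψ.toUnitHom.range = 1 :=
    pow_card_eq_one'
  exact congrArg Subtype.val h3

theorem pow_range {N : ℕ} (hN : 0 < N) {ψ : MulChar k ℂ} (hψ : orderOf ψ = N) :
    (powMonoidHom N : Eˣ →* Eˣ).range = (theta ψ E).ker ∧
      Nat.card (powMonoidHom N : Eˣ →* Eˣ).ker = N := by
  have hNe : NeZero N := ⟨hN.ne'⟩
  set P := (powMonoidHom N : Eˣ →* Eˣ) with hP
  have hfin : Finite Eˣ := inferInstance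
  have hψN : ψ ^ N = 1 := by rw [← hψ, pow_orderOf_eq_one]
  have hle : P.range ≤ (theta ψ E).ker := by
    rintro _ ⟨w, rfl⟩
    rw [MonoidHom.mem_ker]
    apply Units.ext
    rw [theta_coe, hP, powMonoidHom_apply, Units.val_pow_eq_pow_val, map_pow, Units.val_one,
      map_pow, ← MulChar.pow_apply' ψ hN.ne', hψN, MulChar.one_apply]
    exact (w.isUnit).map (Algebra.norm k)
  have hK : Nat.card P.ker ≤ N := by
    have h1 : P.ker = rootsOfUnity N E := by
      ext w
      rw [MonoidHom.mem_ker, mem_rootsOfUnity, hP, powMonoidHom_apply]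
    rw [h1]
    exact card_rootsOfUnity E N
  have hc1 : Nat.card P.ker * Nat.card P.range = Nat.card Eˣ := by
    rw [← Subgroup.index_ker, Subgroup.card_mul_index]
  have hc2 : Nat.card (theta ψ E).ker * Nat.card (theta ψ E).range = Nat.card Eˣ := by
    rw [← Subgroup.index_ker, Subgroup.card_mul_index]
  have hT : N ≤ Nat.card (theta ψ E).range := by
    rw [← hψ]
    exact order_le_range ψ
  have hle' : Nat.card P.range ≤ Nat.card (theta ψ E).ker :=
    Nat.card_le_card_of_injective _ (Subgroup.inclusion_injective hle)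
  have hpos : 0 < Nat.card P.range := Nat.card_pos
  have hpos2 : 0 < Nat.card (theta ψ E).ker := Nat.card_pos
  have h3 : Nat.card (theta ψ E).ker * Nat.card (theta ψ E).range =
      Nat.card P.ker * Nat.card P.range := by rw [hc1, hc2]
  have h4 : Nat.card (theta ψ E).ker ≤ Nat.card P.range := by
    by_contra hcon
    have h5 : Nat.card P.ker * Nat.card P.range <
        Nat.card (theta ψ E).ker * Nat.card (theta ψ E).range := by
      calc Nat.card P.ker * Nat.card P.range ≤ N * Nat.card P.range :=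
            Nat.mul_le_mul_right _ hK
        _ < N * Nat.card (theta ψ E).ker := Nat.mul_lt_mul_of_pos_left (by omega) hN
        _ = Nat.card (theta ψ E).ker * N := mul_comm _ _
        _ ≤ _ := Nat.mul_le_mul_left _ hT
    omega
  refine ⟨Subgroup.eq_of_le_of_card_ge hle h4, ?_⟩
  have h6 : Nat.card (theta ψ E).ker = Nat.card P.range := le_antisymm h4 hle'
  rw [h6, mul_comm] at h3
  have h7 := Nat.eq_of_mul_eq_mul_right hpos h3
  omega

open Classical in
/-- the number of the `N`-th roots -/
theorem sum_char {N : ℕ} (hN : 0 < N) {ψ : MulChar k ℂ} (hψ : orderOf ψ = N) (y : E) :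
    ∑ i ∈ Finset.range N, (ψ ^ i) (Algebra.norm k y) + (if y = 0 then 1 else 0) =
      (Nat.card {w : E // w ^ N = y} : ℂ) := by
  by_cases hy : y = 0
  · subst hy
    rw [if_pos rfl, Finset.sum_eq_zero, zero_add]
    · have h1 : Nat.card {w : E // w ^ N = 0} = 1 := by
        rw [Nat.card_eq_one_iff_unique]
        refine ⟨⟨fun a b => Subtype.ext ?_⟩, ⟨⟨0, zero_pow hN.ne'⟩⟩⟩
        rw [pow_eq_zero_iff hN.ne' |>.1 a.2, pow_eq_zero_iff hN.ne' |>.1 b.2]
      rw [h1, Nat.cast_one]
    · intro i _
      rw [Algebra.norm_zero, MulChar.map_zero]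
  · rw [if_neg hy, add_zero]
    set u : Eˣ := Units.mk0 y hy with hu
    have hNy : IsUnit (Algebra.norm k y) := (isUnit_iff_ne_zero.2 hy).map (Algebra.norm k)
    obtain ⟨hr, hK⟩ := pow_range (E := E) hN hψ
    set P := (powMonoidHom N : Eˣ →* Eˣ) with hP
    have hψN : ψ ^ N = 1 := by rw [← hψ, pow_orderOf_eq_one]
    set t := ψ (Algebra.norm k y) with ht
    have htN : t ^ N = 1 := by
      rw [ht, ← MulChar.pow_apply' ψ hN.ne', hψN, MulChar.one_apply hNy]
    have hsum : ∑ i ∈ Finset.range N, (ψ ^ i) (Algebra.norm k y) =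
        ∑ i ∈ Finset.range N, t ^ i := by
      refine Finset.sum_congr rfl fun i _ => ?_
      obtain ⟨v, hv⟩ := hNy
      rw [ht, ← hv, MulChar.pow_apply_coe]
    have hiff : t = 1 ↔ u ∈ P.range := by
      rw [hr, MonoidHom.mem_ker, ← Units.val_inj, theta_coe, Units.val_one]
      rfl
    -- the roots
    have hPa : ∀ w : Eˣ, ((P w : Eˣ) : E) = (w : E) ^ N := fun w => by
      rw [hP, powMonoidHom_apply, Units.val_pow_eq_pow_val]
    have huv : ((u : Eˣ) : E) = y := by rw [hu, Units.val_mk0]
    have hcard : Nat.card {w : E // w ^ N = y} = Nat.card {w : Eˣ // P w = u} := by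
      refine Nat.card_congr ⟨fun w => ⟨Units.mk0 w.1 (fun h => hy (by
        rw [← w.2, h, zero_pow hN.ne'])), Units.ext (by
          rw [hPa, Units.val_mk0, w.2, huv])⟩, fun w => ⟨((w.1 : Eˣ) : E), by
          rw [← hPa, w.2, huv]⟩, fun w => Subtype.ext rfl, fun w => Subtype.ext (Units.ext rfl)⟩
    rw [hsum, hcard]
    by_cases hmem : u ∈ P.range
    · obtain ⟨w₀, hw₀⟩ := hmem
      have h1 : Nat.card {w : Eˣ // P w = u} = Nat.card P.ker := by
        refine Nat.card_congr ⟨fun w => ⟨w.1 / w₀, by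
          rw [MonoidHom.mem_ker, map_div, w.2, hw₀, div_self']⟩, fun w => ⟨w.1 * w₀, by
          have := MonoidHom.mem_ker.1 w.2
          rw [map_mul, this, one_mul, hw₀]⟩, fun w => Subtype.ext (div_mul_cancel _ _),
          fun w => Subtype.ext (mul_div_cancel_right _ _)⟩
      rw [h1, hK, hiff.2 ⟨w₀, hw₀⟩]
      simp
    · have h1 : Nat.card {w : Eˣ // P w = u} = 0 := by
        have : IsEmpty {w : Eˣ // P w = u} := ⟨fun w => hmem ⟨w.1, w.2⟩⟩
        exact Nat.card_of_isEmpty
      have ht1 : t ≠ 1 := fun h => hmem (hiff.1 h)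
      rw [h1, geom_sum_eq ht1, htN, sub_self, zero_div, Nat.cast_zero]

end roots

section cover

variable {k : Type} [Field k] {m : ℕ}

/-- The polynomial `w ^ N - G`, with the additional last variable `w`. -/
noncomputable def coverPoly (N : ℕ) (G : MvPolynomial (Fin m) k) : MvPolynomial (Fin (m + 1)) k :=
  MvPolynomial.X (Fin.last m) ^ N - MvPolynomial.rename Fin.castSucc G

theorem aeval_cover {E : Type} [Field E] [Algebra k E] (N : ℕ) (G : MvPolynomial (Fin m) k)
    (x : Fin m → E) (w : E) :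
    MvPolynomial.aeval (Fin.snoc x w : Fin (m + 1) → E) (coverPoly N G) =
      w ^ N - MvPolynomial.aeval x G := by
  unfold coverPoly
  rw [map_sub, map_pow, MvPolynomial.aeval_X, Fin.snoc_last, MvPolynomial.aeval_rename]
  congr 3
  funext i
  exact Fin.snoc_castSucc (α := fun _ => E) _ _ _

theorem card_cover {E : Type} [Field E] [Finite E] [Algebra k E] (N : ℕ)
    (G : MvPolynomial (Fin m) k) [Fintype (Fin m → E)] :
    Nat.card {z : Fin (m + 1) → E // MvPolynomial.aeval z (coverPoly N G) = 0} =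
      ∑ x : Fin m → E, Nat.card {w : E // w ^ N = MvPolynomial.aeval x G} := by
  rw [← Nat.card_sigma]
  refine Nat.card_congr ⟨fun z => ⟨fun i => z.1 i.castSucc, z.1 (Fin.last m), ?_⟩,
    fun z => ⟨Fin.snoc z.1 z.2.1, ?_⟩, ?_, ?_⟩
  · have h1 : (Fin.snoc (fun i : Fin m => z.1 i.castSucc) (z.1 (Fin.last m)) : Fin (m + 1) → E) =
        z.1 := Fin.snoc_init_self z.1
    have h2 := aeval_cover N G (fun i => z.1 i.castSucc) (z.1 (Fin.last m))
    rw [h1, z.2] at h2
    exact (sub_eq_zero.1 h2.symm)
  · rw [aeval_cover, z.2.2, sub_self]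
  · intro z
    apply Subtype.ext
    exact Fin.snoc_init_self z.1
  · rintro ⟨x, w, hw⟩
    have h1 : (fun i : Fin m => (Fin.snoc x w : Fin (m + 1) → E) i.castSucc) = x := by
      funext i
      exact Fin.snoc_castSucc (α := fun _ => E) _ _ _
    have h2 : (Fin.snoc x w : Fin (m + 1) → E) (Fin.last m) = w := Fin.snoc_last _ _
    exact Sigma.subtype_ext h1 h2

/-- **The product of the characters of order dividing `N`.** -/
theorem cover_formula [Finite k] {N : ℕ} (hN : 0 < N) {ψ : MulChar k ℂ} (hψ : orderOf ψ = N)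
    (G : MvPolynomial (Fin m) k) :
    (∏ i ∈ Finset.range N, charProduct (ψ ^ i) m G) *
        PowerSeries.map (Int.castRingHom ℂ) (zetaInv m G) =
      PowerSeries.map (Int.castRingHom ℂ) (zetaInv (m + 1) (coverPoly N G)) := by
  classical
  have hind : ∀ (u : k) (j : ℕ), j ≠ 0 → (if u ^ j = 0 then (1 : ℂ) else 0) =
      (if u = 0 then (1 : ℂ) else 0) ^ j := by
    intro u j hj
    by_cases hu : u = 0
    · rw [hu, zero_pow hj, if_pos rfl, one_pow]
    · rw [if_neg hu, if_neg (pow_ne_zero j hu), zero_pow hj]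
  have h1 : ∀ i ∈ Finset.range N, IsGh (fun e => if e = 0 then 0 else
      -cnt m k G (fun u : k => (ψ ^ i) u) e) (charProduct (ψ ^ i) m G) := by
    intro i _
    exact isGh_weight G (fun u : k => (ψ ^ i) u) (fun u j _ => map_pow _ _ _)
  have h2 := isGh_weight G (fun u : k => if u = 0 then (1 : ℂ) else 0) hind
  have h3 := isGh_weight (coverPoly N G) (fun u : k => if u = 0 then (1 : ℂ) else 0) hind
  rw [zetaInv_eq, zetaInv_eq]
  refine gh_unique ((IsGh.prod _ h1).mul h2) h3 ?_
  intro e he
  obtain ⟨E, _, _, _, hE⟩ := exists_ext k he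
  have : Fintype E := Fintype.ofFinite E
  rw [Pi.add_apply, Finset.sum_apply, if_neg he, if_neg he,
    Finset.sum_congr rfl (fun i _ => if_neg he), ← hE, cnt_zero (coverPoly N G) E,
    card_cover N G, Finset.sum_neg_distrib, ← neg_add]
  congr 1
  rw [Finset.sum_congr rfl (fun i _ => (sum_points m k E _ rfl G _).symm),
    ← sum_points m k E _ rfl G, Finset.sum_comm, ← Finset.sum_add_distrib]
  push_cast
  refine Finset.sum_congr rfl fun x _ => ?_
  rw [← sum_char (E := E) hN hψ]
  congr 1
  simp only [Algebra.norm_eq_zero_iff]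

end cover

section cp

variable {k : Type} [Field k] [Finite k] {A : Type} [CommRing A] {m : ℕ}

theorem cp_unit (χ : MulChar k A) (G : MvPolynomial (Fin m) k) :
    PowerSeries.constantCoeff (charProduct χ m G) = 1 := by
  have h1 : PowerSeries.coeff 0 (charProduct χ m G) = 1 := by
    show PowerSeries.coeff 0 (eulerProd _ _) = 1
    rw [coeff_eulerProd (finite_le m k)]
    have h2 : (finite_le m k 0).toFinset = ∅ := by
      ext z
      simp only [Set.Finite.mem_toFinset, Set.mem_ofPred_eq, Finset.notMem_empty, iff_false]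
      have := deg_pos m k z
      omega
    rw [h2, Finset.prod_empty, PowerSeries.coeff_zero_eq_constantCoeff_apply, map_one]
  rwa [PowerSeries.coeff_zero_eq_constantCoeff_apply] at h1

theorem cp_congr {R : Type} [CommRing R] (ρ : A →+* R) {χ χ' : MulChar k A}
    (h : ∀ u : k, u ≠ 0 → ρ (χ u) = ρ (χ' u)) (G : MvPolynomial (Fin m) k) :
    PowerSeries.map ρ (charProduct χ m G) = PowerSeries.map ρ (charProduct χ' m G) := by
  show PowerSeries.map ρ (eulerProd _ _) = PowerSeries.map ρ (eulerProd _ _)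
  rw [map_eulerProd (finite_le m k), map_eulerProd (finite_le m k)]
  congr 1
  funext z
  rw [map_sub, map_sub, map_mul, map_mul, PowerSeries.map_C, PowerSeries.map_C]
  by_cases hz : normValue m k G z = 0
  · rw [hz, MulChar.map_zero, MulChar.map_zero]
  · rw [h _ hz]

theorem cp_map {B : Type} [CommRing B] (σ : A →+* B) {χ : MulChar k A} {χ' : MulChar k B}
    (h : ∀ u : k, σ (χ u) = χ' u) (G : MvPolynomial (Fin m) k) :
    PowerSeries.map σ (charProduct χ m G) = charProduct χ' m G := by
  show PowerSeries.map σ (eulerProd _ _) = eulerProd _ _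
  rw [map_eulerProd (finite_le m k)]
  congr 1
  funext z
  rw [map_sub, map_mul, PowerSeries.map_C, h, map_one, map_pow, PowerSeries.map_X]

end cp

end Pool.Agent.R413.DT
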