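import Pool.Agent.R413.DT.Core

/-!
The zeta functions of constructible subsets of affine space.
-/

set_option autoImplicit false
set_option maxHeartbeats 1000000

open Module

namespace Pool.Agent.R413.DT

open Pool.Agent.W313.Hyp (MI MI.deg_pos finite_deg_le)
open Pool.Agent.TH639.SN Pool.Agent.W343.BSD Pool.Agent.Y711

section family

theorem sum_family {A ι : Type} [AddCommMonoid A] : ∀ (m : ℕ) (F : Type) [Field F] [Finite F]
    (E : Type) [Field E] [Fintype E] [Algebra F E] (n : ℕ), finrank F E = n →
    ∀ (G : ι → MvPolynomial (Fin m) F) (W : (ι → F) → A),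
      ∑ x : Fin m → E, W (fun i => Algebra.norm F (MvPolynomial.aeval x (G i))) =
        ∑ z ∈ (finite_le m F n).toFinset, if deg m F z ∣ n then
          deg m F z • W (fun i => normValue m F (G i) z ^ (n / deg m F z)) else 0
  | 0, F, _, _, E, _, _, _, n, hn, G, W => by
    have hfin : Module.Finite F E := Module.Finite.of_finite
    have hn0 : 0 < n := by rw [← hn]; exact finrank_pos
    rw [Fintype.sum_unique]
    have h0 : ∀ (x : Fin 0 → E) (i : ι), Algebra.norm F (MvPolynomial.aeval x (G i)) =
        (MvPolynomial.constantCoeff (G i)) ^ n := by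
      intro x i
      have h2 : MvPolynomial.aeval x (G i) = algebraMap F E (MvPolynomial.constantCoeff (G i)) := by
        conv_lhs => rw [MvPolynomial.eq_C_of_isEmpty (G i)]
        rw [MvPolynomial.aeval_C]
        rfl
      rw [h2, Algebra.norm_algebraMap, hn]
    have h1 : (finite_le 0 F n).toFinset = ({(show SpacePt 0 F from ())} : Finset (SpacePt 0 F)) := by
      ext z
      rw [Set.Finite.mem_toFinset, Finset.mem_singleton]
      exact ⟨fun _ => rfl, fun _ => hn0⟩
    rw [h1]
    refine Eq.trans ?_ (Finset.sum_singleton (f := fun z : SpacePt 0 F => if deg 0 F z ∣ n then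
      deg 0 F z • W (fun i => normValue 0 F (G i) z ^ (n / deg 0 F z)) else 0)
      (a := (show SpacePt 0 F from ()))).symm
    show _ = if 1 ∣ n then 1 • W (fun i => (MvPolynomial.constantCoeff (G i)) ^ (n / 1)) else 0
    rw [if_pos (one_dvd _), one_smul, Nat.div_one]
    congr 1
    funext i
    exact h0 _ i
  | m + 1, F, _, _, E, _, _, _, n, hn, G, W => by
    classical
    have hfin : Module.Finite F E := Module.Finite.of_finite
    have hn0 : 0 < n := by rw [← hn]; exact finrank_pos
    have hRes : ∀ P : ClosedPt F, Finite (Res P) := finRes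
    have hFree : ∀ P : ClosedPt F, Module.Free F (Res P) := fun P => by
      have h : Module.Free F (AdjoinRoot P.1) :=
        Module.Free.of_basis (AdjoinRoot.powerBasis P.2.2.ne_zero).basis
      exact h
    -- the sum over the first coordinate
    have h1 : ∑ x : Fin (m + 1) → E, W (fun i => Algebra.norm F (MvPolynomial.aeval x (G i))) =
        ∑ θ : E, ∑ y : Fin m → E, W (fun i => Algebra.norm F (MvPolynomial.aeval
          (Fin.cons θ y : Fin (m + 1) → E) (G i))) := by
      rw [← Fintype.sum_prod_type', ← (Fin.consEquiv (fun _ : Fin (m + 1) => E)).sum_comp]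
      rfl
    rw [h1, Pool.Agent.Y709.sum_closed hn _ (fun P =>
      ∑ z ∈ (finite_le m (Res P) (n / P.1.natDegree)).toFinset,
        if deg m (Res P) z ∣ n / P.1.natDegree then deg m (Res P) z •
          W (fun i => Algebra.norm F (normValue m (Res P) (specialize P (G i)) z ^
            (n / P.1.natDegree / deg m (Res P) z))) else 0)]
    · have h2 : ∑ P ∈ (finite_deg_le (F := F) n).toFinset,
          (if P.1.natDegree ∣ n then P.1.natDegree •
            ∑ z ∈ (finite_le m (Res P) (n / P.1.natDegree)).toFinset,
              (if deg m (Res P) z ∣ n / P.1.natDegree then deg m (Res P) z •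
                W (fun i => Algebra.norm F (normValue m (Res P) (specialize P (G i)) z ^
                  (n / P.1.natDegree / deg m (Res P) z))) else 0) else 0) =
          ∑ P ∈ (finite_deg_le (F := F) n).toFinset,
            ∑ z ∈ (finite_le m (Res P) (n / P.1.natDegree)).toFinset,
              (if deg (m + 1) F ⟨P, z⟩ ∣ n then deg (m + 1) F ⟨P, z⟩ •
                W (fun i => normValue (m + 1) F (G i) ⟨P, z⟩ ^ (n / deg (m + 1) F ⟨P, z⟩))
                  else 0) := by
        refine Finset.sum_congr rfl fun P hP => ?_
        have hdeg : ∀ z : SpacePt m (Res P), deg (m + 1) F ⟨P, z⟩ =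
            P.1.natDegree * deg m (Res P) z := fun _ => rfl
        split_ifs with hd
        · rw [Finset.smul_sum]
          refine Finset.sum_congr rfl fun z _ => ?_
          have hiff : deg (m + 1) F ⟨P, z⟩ ∣ n ↔ deg m (Res P) z ∣ n / P.1.natDegree := by
            rw [hdeg, Nat.dvd_div_iff_mul_dvd hd]
          by_cases hz : deg m (Res P) z ∣ n / P.1.natDegree
          · rw [if_pos hz, if_pos (hiff.2 hz), smul_smul, hdeg, Nat.div_div_eq_div_mul]
            simp only [map_pow]
            rfl
          · rw [if_neg hz, if_neg (fun h => hz (hiff.1 h)), smul_zero]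
        · symm
          refine Finset.sum_eq_zero fun z _ => ?_
          rw [if_neg]
          intro h
          exact hd ((Dvd.intro _ rfl).trans h)
      refine h2.trans ?_
      rw [← Finset.sum_sigma (finite_deg_le (F := F) n).toFinset
        (fun P => (finite_le m (Res P) (n / P.1.natDegree)).toFinset)
        (fun z : (Σ P : ClosedPt F, SpacePt m (Res P)) => (if deg (m + 1) F z ∣ n then
          deg (m + 1) F z • W (fun i => normValue (m + 1) F (G i) z ^ (n / deg (m + 1) F z))
            else 0))]
      apply Finset.sum_subset
      · rintro ⟨P, z⟩ hz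
        rw [Finset.mem_sigma, Set.Finite.mem_toFinset, Set.Finite.mem_toFinset] at hz
        refine (Set.Finite.mem_toFinset (finite_le (m + 1) F n)).2 ?_
        have h3 : P.1.natDegree ≤ n := hz.1
        have h4 : deg m (Res P) z ≤ n / P.1.natDegree := hz.2
        show P.1.natDegree * deg m (Res P) z ≤ n
        exact (Nat.mul_le_mul_left _ h4).trans (Nat.mul_div_le _ _)
      · rintro ⟨P, z⟩ _ hz
        rw [if_neg]
        intro h
        apply hz
        have h' : P.1.natDegree * deg m (Res P) z ∣ n := h
        have hd : P.1.natDegree ∣ n := (Dvd.intro _ rfl).trans h'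
        rw [Finset.mem_sigma, Set.Finite.mem_toFinset, Set.Finite.mem_toFinset]
        refine ⟨Nat.le_of_dvd hn0 hd, ?_⟩
        show deg m (Res P) z ≤ n / P.1.natDegree
        apply Nat.le_of_dvd (Nat.div_pos (Nat.le_of_dvd hn0 hd) (MI.deg_pos P))
        rwa [Nat.dvd_div_iff_mul_dvd hd]
    · intro P θ hθ
      let _ : Algebra (Res P) E := (emb hθ).toAlgebra
      have hT : IsScalarTower F (Res P) E :=
        IsScalarTower.of_algebraMap_eq fun c => (emb_of hθ c).symm
      have hfr : finrank (Res P) E = n / P.1.natDegree := by
        have h1 := Module.finrank_mul_finrank F (Res P) E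
        rw [finrank_Res, hn] at h1
        rw [← h1, Nat.mul_div_cancel_left _ (MI.deg_pos P)]
      have hfd : Module.Finite (Res P) E := Module.Finite.of_finite
      have h2 : ∀ (y : Fin m → E) (G : MvPolynomial (Fin (m + 1)) F),
          MvPolynomial.aeval y (specialize P G) =
          MvPolynomial.aeval (Fin.cons θ y : Fin (m + 1) → E) G := by
        intro y G
        have h3 : ((MvPolynomial.aeval y : MvPolynomial (Fin m) (Res P) →ₐ[Res P] E) :
            MvPolynomial (Fin m) (Res P) →+* E).comp (specialize P) =
            ((MvPolynomial.aeval (Fin.cons θ y : Fin (m + 1) → E) :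
              MvPolynomial (Fin (m + 1)) F →ₐ[F] E) : MvPolynomial (Fin (m + 1)) F →+* E) := by
          apply MvPolynomial.ringHom_ext
          · intro c
            unfold specialize
            simp only [RingHom.comp_apply, MvPolynomial.eval₂Hom_C, RingHom.coe_coe,
              MvPolynomial.aeval_C]
            exact emb_of hθ c
          · intro i
            unfold specialize
            simp only [RingHom.comp_apply, MvPolynomial.eval₂Hom_X', RingHom.coe_coe,
              MvPolynomial.aeval_X]
            refine Fin.cases ?_ (fun i => ?_) i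
            · rw [Fin.cons_zero, Fin.cons_zero, MvPolynomial.aeval_C]
              exact emb_coord hθ
            · rw [Fin.cons_succ, Fin.cons_succ, MvPolynomial.aeval_X]
        exact congrArg (fun f => f G) h3
      rw [← sum_family m (Res P) E _ hfr (fun i => specialize P (G i))
        (fun v => W (fun i => Algebra.norm F (v i)))]
      refine Finset.sum_congr rfl fun y _ => ?_
      show W _ = W _
      congr 1
      funext i
      show _ = Algebra.norm F (Algebra.norm (Res P) (MvPolynomial.aeval y (specialize P (G i))))
      rw [h2, Algebra.norm_norm]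

end family

section constructible

variable {ι : Type} {m : ℕ} {k : Type} [Field k]

/-- The points over `E` of the subset of affine space given by the polynomials `G i` and the condition
`Q` on the set of the indices `i` with `G i = 0`. -/
def Points (G : ι → MvPolynomial (Fin m) k) (Q : Set ι → Prop) (E : Type) [Field E]
    [Algebra k E] : Type :=
  {x : Fin m → E // Q {i | MvPolynomial.aeval x (G i) = 0}}

/-- The closed points of the subset of affine space given by the `G i` and `Q`. -/
def ClosedPoints (G : ι → MvPolynomial (Fin m) k) (Q : Set ι → Prop) : Type :=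
  {z : SpacePt m k // Q {i | normValue m k (G i) z = 0}}

/-- The product over the closed points of the `1 - X ^ (deg z)`. -/
noncomputable def zetaC (R : Type) [CommRing R] (G : ι → MvPolynomial (Fin m) k)
    (Q : Set ι → Prop) : PowerSeries R :=
  eulerProd (fun z : ClosedPoints G Q => deg m k z.1) (fun z => 1 - PowerSeries.X ^ deg m k z.1)

variable [Finite k]

theorem finite_closed (G : ι → MvPolynomial (Fin m) k) (Q : Set ι → Prop) (n : ℕ) :
    {z : ClosedPoints G Q | deg m k z.1 ≤ n}.Finite :=
  Set.Finite.of_finite_image (f := fun z : ClosedPoints G Q => z.1)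
    ((finite_le m k n).subset (by rintro _ ⟨i, hi, rfl⟩; exact hi))
    (Set.injOn_of_injective Subtype.val_injective)

open Classical in
theorem zetaC_eq (R : Type) [CommRing R] (G : ι → MvPolynomial (Fin m) k) (Q : Set ι → Prop) :
    zetaC R G Q = eulerProd (fun z : SpacePt m k => deg m k z)
      (fun z => 1 - PowerSeries.C (if Q {i | normValue m k (G i) z = 0} then (1 : R) else 0) *
        PowerSeries.X ^ deg m k z) := by
  have h1 : zetaC R G Q = eulerProd (fun z : SpacePt m k => deg m k z)
      (fun z => if Q {i | normValue m k (G i) z = 0} then 1 - PowerSeries.X ^ deg m k z else 1) :=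
    Pool.Agent.W313.Hyp.eulerProd_subtype (fun z : SpacePt m k =>
      Q {i | normValue m k (G i) z = 0}) (finite_le m k)
      (f := fun z => (1 - PowerSeries.X ^ deg m k z : PowerSeries R))
      (fun z _ => Pool.Agent.TH639.SC.one_sub_mod le_rfl)
  rw [h1]
  congr 1
  funext z
  split_ifs with h
  · rw [PowerSeries.C.map_one, one_mul]
  · rw [PowerSeries.C.map_zero, zero_mul, sub_zero]

theorem map_zetaC {R S : Type} [CommRing R] [CommRing S] (φ : R →+* S)
    (G : ι → MvPolynomial (Fin m) k) (Q : Set ι → Prop) :
    PowerSeries.map φ (zetaC R G Q) = zetaC S G Q := by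
  unfold zetaC
  rw [map_eulerProd (finite_closed G Q)]
  congr 1
  funext z
  rw [map_sub, map_one, map_pow, PowerSeries.map_X]

/-- **The zeta function from the numbers of points.** -/
theorem zetaC_formula (G : ι → MvPolynomial (Fin m) k) (Q : Set ι → Prop) {C B : Multiset ℂ}
    (h : ∀ (E : Type) [Field E] [Finite E] [Algebra k E], (Nat.card (Points G Q E) : ℂ) =
      (C.map fun c => c ^ finrank k E).sum - (B.map fun b => b ^ finrank k E).sum) :
    zetaC ℂ G Q * prodOne B = prodOne C := by
  classical
  have hw := isGh_euler (R := ℂ) (d := fun z : SpacePt m k => deg m k z) (finite_le m k)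
    (F := fun z => 1 - PowerSeries.C (if Q {i | normValue m k (G i) z = 0} then (1 : ℂ) else 0) *
      PowerSeries.X ^ deg m k z)
    (s := fun z e => if e ≠ 0 ∧ deg m k z ∣ e then
      -((deg m k z : ℂ) * (if Q {i | normValue m k (G i) z = 0} then (1 : ℂ) else 0) ^
        (e / deg m k z)) else 0)
    (fun z => isGh_factor _ (deg_pos m k z).ne')
    (fun z => by
      rw [sub_right_comm, sub_self, zero_sub, dvd_neg]
      exact dvd_mul_left _ _)
    (by
      intro z e he
      rw [if_neg]
      rintro ⟨h1, h2⟩
      exact absurd (Nat.le_of_dvd (Nat.pos_of_ne_zero h1) h2) (not_le.2 he))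
  rw [zetaC_eq]
  refine gh_unique (hw.mul (gh_prodOne B)) (gh_prodOne C) ?_
  intro e he
  obtain ⟨E, _, _, _, hE⟩ := exists_ext k he
  have : Fintype E := Fintype.ofFinite E
  have hfd : Module.Finite k E := Module.Finite.of_finite
  rw [Pi.add_apply, if_neg he, if_neg he]
  have h1 := h E
  have h2 : (Nat.card (Points G Q E) : ℂ) = ∑ x : Fin m → E,
      (fun v : ι → k => if Q {i | v i = 0} then (1 : ℂ) else 0)
        (fun i => Algebra.norm k (MvPolynomial.aeval x (G i))) := by
    unfold Points
    rw [Nat.card_eq_fintype_card, Fintype.card_subtype, Finset.card_filter]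
    push_cast
    refine Finset.sum_congr rfl fun x _ => ?_
    simp only [Algebra.norm_eq_zero_iff]
  rw [h2, sum_family m k E e hE G (fun v : ι → k => if Q {i | v i = 0} then (1 : ℂ) else 0)] at h1
  have h3 : ∑ z ∈ (finite_le m k e).toFinset, (if e ≠ 0 ∧ deg m k z ∣ e then
      -((deg m k z : ℂ) * (if Q {i | normValue m k (G i) z = 0} then (1 : ℂ) else 0) ^
        (e / deg m k z)) else 0) =
      -∑ z ∈ (finite_le m k e).toFinset, (if deg m k z ∣ e then deg m k z •
        (fun v : ι → k => if Q {i | v i = 0} then (1 : ℂ) else 0)
          (fun i => normValue m k (G i) z ^ (e / deg m k z)) else 0) := by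
    rw [← Finset.sum_neg_distrib]
    refine Finset.sum_congr rfl fun z _ => ?_
    by_cases hd : deg m k z ∣ e
    · have hq : e / deg m k z ≠ 0 := by
        have := Nat.div_pos (Nat.le_of_dvd (Nat.pos_of_ne_zero he) hd) (deg_pos m k z)
        omega
      rw [if_pos ⟨he, hd⟩, if_pos hd, nsmul_eq_mul]
      simp only [pow_eq_zero_iff hq]
      congr 2
      split_ifs
      · rw [one_pow]
      · rw [zero_pow hq]
    · rw [if_neg (fun h => hd h.2), if_neg hd, neg_zero]
  rw [h3, h1, hE]
  ring

end constructible

end Pool.Agent.R413.DT
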