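import Pool.Agent.R413.DT.Cover
import Mathlib.FieldTheory.Minpoly.IsConjRoot
import Mathlib.FieldTheory.AlgebraicClosure
import Mathlib.NumberTheory.MulChar.Basic
import Mathlib.RingTheory.Polynomial.Cyclotomic.Roots
import Mathlib.Data.Nat.Totient
import Mathlib.Data.ZMod.Units

/-!
The orders of the roots of unity in the zeros of the products of characters.
-/

set_option autoImplicit false
set_option maxHeartbeats 1000000

open Module

namespace Pool.Agent.R413.DT

open Pool.Agent.W313.Hyp (MI MI.deg_pos finite_deg_le)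
open Pool.Agent.TH639.SN Pool.Agent.W343.BSD Pool.Agent.Y711

section lift

variable {k : Type} [Field k] {A : Type} [CommRing A]

/-- the values of a character in a subring -/
theorem exists_liftChar {φ : A →+* ℂ} (hφ : Function.Injective φ) (χ : MulChar k ℂ)
    (h : ∀ u, ∃ a, φ a = χ u) : ∃ χ' : MulChar k A, ∀ u, φ (χ' u) = χ u := by
  choose f hf using h
  refine ⟨{ toFun := f
            map_one' := hφ (by rw [hf, map_one, map_one])
            map_mul' := fun x y => hφ (by rw [hf, map_mul, map_mul, hf, hf])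
            map_nonunit' := fun a ha => hφ (by rw [hf, χ.map_nonunit ha, map_zero]) }, ?_⟩
  intro u
  exact hf u

theorem exists_liftPoly {φ : A →+* ℂ} (hφ : Function.Injective φ) {f : PowerSeries A}
    {P : Polynomial ℂ} (h : PowerSeries.map φ f = (P : PowerSeries ℂ)) :
    ∃ P' : Polynomial A, f = (P' : PowerSeries A) ∧ P'.map φ = P := by
  have h1 : f = ((PowerSeries.trunc (P.natDegree + 1) f : Polynomial A) : PowerSeries A) := by
    ext n
    rw [Polynomial.coeff_coe, PowerSeries.coeff_trunc]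
    split_ifs with hn
    · rfl
    · apply hφ
      have h2 := congrArg (PowerSeries.coeff n) h
      rw [PowerSeries.coeff_map, Polynomial.coeff_coe,
        Polynomial.coeff_eq_zero_of_natDegree_lt (by omega)] at h2
      rw [h2, map_zero]
  refine ⟨_, h1, ?_⟩
  apply Polynomial.coe_injective ℂ
  rw [Polynomial.polynomial_map_coe, ← h1, h]

theorem mulChar_pow_mul [Finite k] (ψ χ : MulChar k A) (i : ℕ) {u : k} (hu : IsUnit u) :
    (ψ ^ i * χ) u = ψ u ^ i * χ u := by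
  obtain ⟨v, rfl⟩ := hu
  rw [MulChar.mul_apply, MulChar.pow_apply_coe]

end lift

section arith

theorem exists_lift {N e s' : ℕ} (hN : 0 < N) (he : e ∣ N) (hs : s'.Coprime e) :
    ∃ s : ℕ, s.Coprime N ∧ s ≡ s' [MOD e] := by
  have : NeZero N := ⟨hN.ne'⟩
  obtain ⟨y, hy⟩ := ZMod.unitsMap_surjective he (ZMod.unitOfCoprime s' hs)
  refine ⟨(y : ZMod N).val, ZMod.val_coe_unit_coprime y, ?_⟩
  have h1 := congrArg Units.val hy
  rw [ZMod.unitsMap_val, ZMod.coe_unitOfCoprime] at h1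
  rw [← ZMod.natCast_eq_natCast_iff, ← h1, ZMod.natCast_val]

/-- a unit modulo `w`, one modulo a prime power, prime to `N` -/
theorem exists_exponent {w N L s : ℕ} (hw : 0 < w) (hN : 0 < N) (hcop : (w * N).Coprime L)
    (hs : s.Coprime w) : ∃ S : ℕ, S.Coprime (w * N * L) ∧ S ≡ s [MOD w] ∧ S ≡ 1 [MOD L] := by
  obtain ⟨t, ht, hts⟩ := exists_lift (Nat.mul_pos hw hN) (dvd_mul_right w N) hs
  obtain ⟨S, hS1, hS2⟩ := Nat.chineseRemainder hcop t 1
  refine ⟨S, ?_, ?_, hS2⟩
  · apply Nat.Coprime.mul_right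
    · have h1 : Nat.gcd (w * N) S = Nat.gcd (w * N) t := by
        exact Nat.ModEq.gcd_eq hS1 |> fun h => by rw [Nat.gcd_comm, h, Nat.gcd_comm]
      rw [Nat.coprime_comm, Nat.Coprime, h1, Nat.gcd_comm]
      exact ht
    · have h1 := hS2.gcd_eq
      rw [Nat.Coprime, h1, Nat.gcd_one_left]
  · exact (hS1.of_dvd (dvd_mul_right w N)).trans hts

theorem totient_dvd {w D : ℕ} (hw : 0 < w) (h : w.totient ≤ D) :
    w ∣ (D + 1).factorial * D.factorial := by
  have h1 : w = (∏ p ∈ w.primeFactors, p) * (w / ∏ p ∈ w.primeFactors, p) :=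
    (Nat.mul_div_cancel' (Nat.prod_primeFactors_dvd w)).symm
  have hpos : 0 < w.totient := Nat.totient_pos.2 hw
  have h2 : w / (∏ p ∈ w.primeFactors, p) ∣ w.totient := by
    rw [Nat.totient_eq_div_primeFactors_mul w]
    exact dvd_mul_right _ _
  have h3 : 0 < w / ∏ p ∈ w.primeFactors, p := Nat.pos_of_dvd_of_pos h2 hpos
  rw [h1]
  apply mul_dvd_mul
  · apply Finset.prod_primes_dvd
    · intro p hp
      exact (Nat.prime_of_mem_primeFactors hp).prime
    · intro p hp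
      have hp' := Nat.prime_of_mem_primeFactors hp
      apply Nat.dvd_factorial hp'.pos
      have h4 : p.totient ∣ w.totient := Nat.totient_dvd_of_dvd (Nat.dvd_of_mem_primeFactors hp)
      rw [Nat.totient_prime hp'] at h4
      have := Nat.le_of_dvd hpos h4
      omega
  · exact Nat.dvd_factorial h3 ((Nat.le_of_dvd hpos h2).trans h)

theorem prod_perm {M : Type} [CommMonoid M] {N S : ℕ} (hN : 0 < N) (hS : S.Coprime N)
    (f : ℕ → M) : ∏ i ∈ Finset.range N, f (i * S % N) = ∏ i ∈ Finset.range N, f i := by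
  classical
  have hinj : Set.InjOn (fun i => i * S % N) (Finset.range N : Set ℕ) := by
    intro i hi j hj hij
    rw [Finset.mem_coe, Finset.mem_range] at hi hj
    have h1 : i * S ≡ j * S [MOD N] := hij
    have h2 := Nat.ModEq.cancel_right_of_coprime (Nat.Coprime.symm hS) h1
    rw [Nat.ModEq, Nat.mod_eq_of_lt hi, Nat.mod_eq_of_lt hj] at h2
    exact h2
  have himg : (Finset.range N).image (fun i => i * S % N) = Finset.range N := by
    apply Finset.eq_of_subset_of_card_le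
    · intro x hx
      obtain ⟨i, -, rfl⟩ := Finset.mem_image.1 hx
      exact Finset.mem_range.2 (Nat.mod_lt _ hN)
    · rw [Finset.card_image_of_injOn hinj]
  conv_rhs => rw [← himg]
  rw [Finset.prod_image hinj]

end arith

section galois

/-- The algebraic numbers. -/
abbrev Qb : Type := algebraicClosure ℚ ℂ

theorem alg_of_pow {x : ℂ} {n : ℕ} (hn : n ≠ 0) (hx : x ^ n = 1) :
    x ∈ algebraicClosure ℚ ℂ := by
  rw [mem_algebraicClosure_iff]
  refine ⟨Polynomial.X ^ n - Polynomial.C 1,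
    Polynomial.X_pow_sub_C_ne_zero (Nat.pos_of_ne_zero hn) 1, ?_⟩
  rw [map_sub, map_pow, Polynomial.aeval_X, Polynomial.aeval_C, map_one, hx, sub_self]

/-- automorphisms acting on roots of unity -/
theorem exists_aut {N S : ℕ} (hN : 0 < N) (hS : S.Coprime N) :
    ∃ σ : Qb ≃ₐ[ℚ] Qb, ∀ x : Qb, x ^ N = 1 → σ x = x ^ S := by
  have hNe : NeZero N := ⟨hN.ne'⟩
  have hω : IsPrimitiveRoot (Complex.exp (2 * Real.pi * Complex.I / N)) N :=
    Complex.isPrimitiveRoot_exp N hN.ne'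
  have halg := alg_of_pow hN.ne' hω.pow_eq_one
  set ω : Qb := ⟨_, halg⟩ with hωd
  have hω' : IsPrimitiveRoot ω N := by
    apply IsPrimitiveRoot.of_map_of_injective (f := (algebraMap Qb ℂ)) hω
    exact (algebraMap Qb ℂ).injective
  have hω'' : IsPrimitiveRoot (ω ^ S) N := hω'.pow_of_coprime S hS
  have hconj : IsConjRoot ℚ ω (ω ^ S) := by
    rw [isConjRoot_def, ← Polynomial.cyclotomic_eq_minpoly_rat hω' hN,
      ← Polynomial.cyclotomic_eq_minpoly_rat hω'' hN]
  have hcl : IsAlgClosure ℚ Qb := algebraicClosure.isAlgClosure ℚ ℂ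
  have hnorm : Normal ℚ Qb := IsAlgClosure.normal ℚ Qb
  obtain ⟨σ, hσ⟩ := hconj.exists_algEquiv
  obtain ⟨τ, hτ⟩ : ∃ τ : Qb ≃ₐ[ℚ] Qb, τ ω = ω ^ S := by
    refine ⟨σ.symm, ?_⟩
    rw [AlgEquiv.symm_apply_eq]
    exact hσ.symm
  refine ⟨τ, fun x hx => ?_⟩
  obtain ⟨i, -, hi⟩ := hω'.eq_pow_of_pow_eq_one hx
  rw [← hi, map_pow, hτ, ← pow_mul, ← pow_mul, mul_comm]

variable {k : Type} [Field k] [Finite k] {m : ℕ}

theorem char_pow_card {A : Type} [CommRing A] (χ : MulChar k A) {u : k} (hu : IsUnit u) :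
    χ u ^ (Nat.card k - 1) = 1 := by
  have := Fintype.ofFinite k
  rw [← map_pow, Nat.card_eq_fintype_card, FiniteField.pow_card_sub_one_eq_one _ hu.ne_zero,
    map_one]

theorem exists_charQb (χ : MulChar k ℂ) : ∃ χ' : MulChar k Qb, ∀ u, (χ' u : ℂ) = χ u := by
  have hφ : Function.Injective (algebraMap Qb ℂ) := (algebraMap Qb ℂ).injective
  refine exists_liftChar (φ := algebraMap Qb ℂ) hφ χ ?_
  intro u
  by_cases hu : IsUnit u
  · have hk1 : 1 < Nat.card k := Finite.one_lt_card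
    exact ⟨⟨χ u, alg_of_pow (by omega) (char_pow_card χ hu)⟩, rfl⟩
  · exact ⟨0, by rw [χ.map_nonunit hu, map_zero]⟩

/-- **The orders of the roots of unity.** -/
theorem order_bound {N ℓ n : ℕ} (hN : 0 < N) (hℓ : ℓ.Prime) (hℓN : ¬ ℓ ∣ N)
    {ψ χ : MulChar k ℂ} (hψ : ψ ^ N = 1) (hχ : χ ^ (ℓ ^ n) = 1) (G : MvPolynomial (Fin m) k)
    {P : Polynomial ℂ}
    (hP : ∏ i ∈ Finset.range N, charProduct (ψ ^ i * χ) m G = (P : PowerSeries ℂ))
    {w M : ℕ} (hw : 0 < w) (hwℓ : ¬ ℓ ∣ w) {ζ : ℂ} (hζ : IsPrimitiveRoot ζ (w * ℓ ^ M)) (c : ℚ)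
    (hc : c ≠ 0) (hz : P.eval (ζ * c) = 0) : w.totient ≤ P.natDegree := by
  classical
  have hφ : Function.Injective (algebraMap Qb ℂ) := (algebraMap Qb ℂ).injective
  -- lifts
  obtain ⟨ψ', hψ'⟩ := exists_charQb ψ
  obtain ⟨χ', hχ'⟩ := exists_charQb χ
  have hval : ∀ (i : ℕ) (u : k), algebraMap Qb ℂ ((ψ' ^ i * χ') u) = (ψ ^ i * χ) u := by
    intro i u
    by_cases hu : IsUnit u
    · rw [mulChar_pow_mul _ _ _ hu, mulChar_pow_mul _ _ _ hu, map_mul, map_pow]
      have e1 : algebraMap Qb ℂ (ψ' u) = ψ u := hψ' u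
      have e2 : algebraMap Qb ℂ (χ' u) = χ u := hχ' u
      rw [e1, e2]
    · rw [MulChar.map_nonunit _ hu, MulChar.map_nonunit _ hu, map_zero]
  have hPmap : PowerSeries.map (algebraMap Qb ℂ)
      (∏ i ∈ Finset.range N, charProduct (ψ' ^ i * χ') m G) = (P : PowerSeries ℂ) := by
    rw [← hP, map_prod]
    exact Finset.prod_congr rfl fun i _ => cp_map _ (hval i) G
  obtain ⟨P', hP', hPP⟩ := exists_liftPoly hφ hPmap
  have hψ1 : ∀ u : k, IsUnit u → ψ' u ^ N = 1 := by
    intro u hu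
    apply hφ
    rw [map_pow, map_one]
    have h1 : algebraMap Qb ℂ (ψ' u) = ψ u := hψ' u
    rw [h1, ← MulChar.pow_apply' ψ hN.ne', hψ, MulChar.one_apply hu]
  have hℓn : 0 < ℓ ^ n := pow_pos hℓ.pos n
  have hχ1 : ∀ u : k, IsUnit u → χ' u ^ (ℓ ^ n) = 1 := by
    intro u hu
    apply hφ
    rw [map_pow, map_one]
    have h1 : algebraMap Qb ℂ (χ' u) = χ u := hχ' u
    rw [h1, ← MulChar.pow_apply' χ hℓn.ne', hχ, MulChar.one_apply hu]
  -- the invariance
  have hinv : ∀ (S : ℕ) (σ : Qb ≃ₐ[ℚ] Qb), S.Coprime N → S ≡ 1 [MOD ℓ ^ n] →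
      (∀ x : Qb, x ^ (N * ℓ ^ n) = 1 → σ x = x ^ S) → P'.map (σ : Qb →+* Qb) = P' := by
    intro S σ hS hS1 hσ
    apply Polynomial.coe_injective Qb
    rw [Polynomial.polynomial_map_coe, ← hP', map_prod,
      ← prod_perm hN hS (fun i => charProduct (ψ' ^ i * χ') m G)]
    refine Finset.prod_congr rfl fun i _ => ?_
    apply cp_map
    intro u
    by_cases hu : IsUnit u
    · rw [mulChar_pow_mul _ _ _ hu, mulChar_pow_mul _ _ _ hu]
      have e1 : (ψ' u ^ i * χ' u) ^ (N * ℓ ^ n) = 1 := by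
        rw [mul_pow, ← pow_mul, mul_comm i, mul_assoc N, pow_mul, hψ1 u hu, one_pow, one_mul,
          mul_comm N, pow_mul, hχ1 u hu, one_pow]
      have e2 : (σ : Qb →+* Qb) (ψ' u ^ i * χ' u) = (ψ' u ^ i * χ' u) ^ S := hσ _ e1
      rw [e2, mul_pow, ← pow_mul]
      have e3 : ψ' u ^ (i * S) = ψ' u ^ (i * S % N) := pow_eq_pow_mod _ (hψ1 u hu)
      have e4 : χ' u ^ S = χ' u := by
        have := pow_eq_pow_of_modEq hS1 (hχ1 u hu)
        rwa [pow_one] at this
      rw [e3, e4]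
    · rw [MulChar.map_nonunit _ hu, MulChar.map_nonunit _ hu, map_zero]
  -- the zeros
  have hlM : 0 < ℓ ^ M := pow_pos hℓ.pos M
  have ho : w * ℓ ^ M ≠ 0 := (Nat.mul_pos hw hlM).ne'
  set ζ' : Qb := ⟨ζ, alg_of_pow ho hζ.pow_eq_one⟩ with hζ'
  have hζ'p : IsPrimitiveRoot ζ' (w * ℓ ^ M) :=
    IsPrimitiveRoot.of_map_of_injective (f := (algebraMap Qb ℂ)) hζ hφ
  have hz' : P'.eval (ζ' * (c : Qb)) = 0 := by
    apply hφ
    rw [map_zero, ← Polynomial.eval_map_apply, hPP, map_mul]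
    have : algebraMap Qb ℂ (c : Qb) = (c : ℂ) := map_ratCast _ c
    rw [this]
    exact hz
  have hcop : (w * N).Coprime (ℓ ^ (M + n)) := by
    apply Nat.Coprime.pow_right
    apply Nat.Coprime.symm
    rw [hℓ.coprime_iff_not_dvd, hℓ.dvd_mul]
    tauto
  have hex : ∀ s : ℕ, s.Coprime w → ∃ S : ℕ, S.Coprime (w * N * ℓ ^ (M + n)) ∧ S ≡ s [MOD w] ∧
      S ≡ 1 [MOD ℓ ^ (M + n)] := fun s hs => exists_exponent hw hN hcop hs
  choose! Sf hS1 hS2 hS3 using hex
  have hroot : ∀ s : ℕ, s.Coprime w → P'.eval (ζ' ^ Sf s * (c : Qb)) = 0 := by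
    intro s hs
    obtain ⟨σ, hσ⟩ := exists_aut (Nat.mul_pos (Nat.mul_pos hw hN) (pow_pos hℓ.pos (M + n)))
      (hS1 s hs)
    have h1 : P'.map (σ : Qb →+* Qb) = P' := by
      refine hinv (Sf s) σ ?_ ?_ ?_
      · exact ((hS1 s hs).coprime_dvd_right (dvd_mul_of_dvd_left (dvd_mul_left N w) _))
      · exact (hS3 s hs).of_dvd (pow_dvd_pow ℓ (by omega))
      · intro x hx
        apply hσ
        have h2 : w * N * ℓ ^ (M + n) = N * ℓ ^ n * (w * ℓ ^ M) := by rw [pow_add]; ring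
        rw [h2, pow_mul, hx, one_pow]
    have h2 := congrArg (σ : Qb →+* Qb) hz'
    rw [map_zero, ← Polynomial.eval_map_apply, h1, map_mul] at h2
    have h3 : (σ : Qb →+* Qb) ζ' = ζ' ^ Sf s := by
      apply hσ
      have h4 : w * N * ℓ ^ (M + n) = w * ℓ ^ M * (N * ℓ ^ n) := by rw [pow_add]; ring
      rw [h4, pow_mul, hζ'p.pow_eq_one, one_pow]
    have h5 : (σ : Qb →+* Qb) (c : Qb) = (c : Qb) := map_ratCast _ c
    rw [h3, h5] at h2
    exact h2
  -- counting
  have hP0 : P' ≠ 0 := by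
    rintro rfl
    have h1 := congrArg PowerSeries.constantCoeff hP'
    rw [map_prod, Finset.prod_congr rfl fun i _ => cp_unit (ψ' ^ i * χ') G,
      Finset.prod_const_one, Polynomial.coe_zero, map_zero] at h1
    exact one_ne_zero h1
  have hdeg : P.natDegree = P'.natDegree := by
    rw [← hPP, Polynomial.natDegree_map]
  have hc' : (c : Qb) ≠ 0 := by
    intro h
    apply hc
    exact_mod_cast h
  rw [hdeg]
  calc w.totient = ((Finset.range w).filter w.Coprime).card := Nat.totient_eq_card_coprime w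
    _ ≤ P'.roots.toFinset.card := by
      refine Finset.card_le_card_of_injOn (fun s => ζ' ^ Sf s * (c : Qb)) ?_ ?_
      · intro s hs
        have hs' := (Finset.mem_filter.1 hs).2
        rw [Finset.mem_coe, Multiset.mem_toFinset, Polynomial.mem_roots hP0]
        exact hroot s hs'.symm
      · intro s hs s' hs' heq
        have h1 := Finset.mem_filter.1 hs
        have h2 := Finset.mem_filter.1 hs'
        have h3 : ζ' ^ Sf s = ζ' ^ Sf s' := mul_right_cancel₀ hc' heq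
        have h4 : Sf s ≡ Sf s' [MOD w * ℓ ^ M] := by
          have hpos : 0 < w * ℓ ^ M := Nat.pos_of_ne_zero ho
          apply hζ'p.pow_inj (Nat.mod_lt _ hpos) (Nat.mod_lt _ hpos)
          rw [← pow_eq_pow_mod _ hζ'p.pow_eq_one, ← pow_eq_pow_mod _ hζ'p.pow_eq_one]
          exact h3
        have h5 : s ≡ s' [MOD w] :=
          ((hS2 s h1.2.symm).symm.trans (h4.of_dvd (dvd_mul_right w _))).trans (hS2 s' h2.2.symm)
        rw [Nat.ModEq, Nat.mod_eq_of_lt (Finset.mem_range.1 h1.1),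
          Nat.mod_eq_of_lt (Finset.mem_range.1 h2.1)] at h5
        exact h5
    _ ≤ P'.roots.card := Multiset.toFinset_card_le _
    _ ≤ P'.natDegree := P'.card_roots'

end galois

end Pool.Agent.R413.DT
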