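import Pool.Agent.R413.DT.Bound

/-!
All the zeros `ζ q ^ (-c)` of the products of characters, for a positive proportion of the primes `ℓ`.
-/

set_option autoImplicit false
set_option maxHeartbeats 1000000

open Module

namespace Pool.Agent.R413.DT

open Pool.Agent.W313.Hyp (MI MI.deg_pos finite_deg_le)
open Pool.Agent.TH639.SN Pool.Agent.W343.BSD Pool.Agent.Y711
open Pool.Agent.Y701.CH (PosDensity PosDensity.diff PosDensity.mono)
open Pool.Agent.TH639.SG (eq_one_of_pow)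

/-- A positive power of the number is real. -/
def RealPower (b : ℂ) : Prop := ∃ w : ℕ, 0 < w ∧ (b ^ w).im = 0

/-- A positive power of the number is a power of `q`. -/
def RootOfPower (q : ℕ) (a : ℂ) : Prop := ∃ w : ℕ, 0 < w ∧ ∃ v : ℕ, a ^ w = (q : ℂ) ^ v

/-- The number is `ζ q ^ (-c)` with a root of unity `ζ`. -/
def IsTwistedPower (q : ℕ) (z : ℂ) : Prop := ∃ w : ℕ, 0 < w ∧ ∃ c : ℕ, (z * (q : ℂ) ^ c) ^ w = 1

variable {k : Type} [Field k] [Finite k] {m : ℕ}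

open Classical in
/-- **The geometric bound.** -/
theorem geo {N : ℕ} (hN : 0 < N) (F : MvPolynomial (Fin m) k) {A B Γ : Multiset ℂ}
    (hF : PointFormula F A B) (hAint : ∀ a ∈ A, IsIntegral ℤ a)
    (hS : PointFormula (coverPoly N F) Γ 0) (D r₀ : ℕ) (hr₀ : 0 < r₀) :
    ∃ S : Set ℕ, PosDensity S ∧ ∀ ℓ ∈ S, ℓ.Prime ∧ ∀ (n : ℕ) (k' : Type) [Field k'] [Finite k']
      [Algebra k k'], (∃ j : ℕ, finrank k k' ∣ r₀ * (ℓ - 1) * ℓ ^ j) →
      ∀ (ψ χ : MulChar k' ℂ), orderOf ψ = N → χ ≠ 1 → χ ^ (ℓ ^ n) = 1 →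
      ∀ G : MvPolynomial (Fin m) k', Related N F G → ∀ P : Polynomial ℂ, P.natDegree ≤ D →
      ∏ i ∈ Finset.range N, charProduct (ψ ^ i * χ) m G = (P : PowerSeries ℂ) →
        (P.roots.filter (IsTwistedPower (Nat.card k'))).card +
          (A.filter (RootOfPower (Nat.card k))).card ≤
            (B.filter RealPower).card + (Γ.filter RealPower).card := by
  obtain ⟨A', hA'⟩ := exists_liftMul A hAint
  obtain ⟨B', hB'⟩ := exists_liftMul B (integral_right hF hAint)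
  obtain ⟨Γ', hΓ'⟩ := exists_liftMul Γ (integral_left hS)
  have hex : ∀ a : ℂ, ∃ w : ℕ, 0 < w ∧ (RootOfPower (Nat.card k) a →
      ∃ v : ℕ, a ^ w = (Nat.card k : ℂ) ^ v) := by
    intro a
    by_cases h : RootOfPower (Nat.card k) a
    · obtain ⟨w, hw, hv⟩ := h
      exact ⟨w, hw, fun _ => hv⟩
    · exact ⟨1, one_pos, fun h' => absurd h' h⟩
  choose wA hwA hvA using hex
  -- the exponent
  obtain ⟨M, hM⟩ : ∃ M : ℕ, M = (D + 1).factorial * D.factorial * ∏ a ∈ A.toFinset, wA a :=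
    ⟨_, rfl⟩
  have hM0 : M ≠ 0 := by
    rw [hM]
    refine mul_ne_zero (mul_ne_zero (Nat.factorial_ne_zero _) (Nat.factorial_ne_zero _)) ?_
    exact Finset.prod_ne_zero_iff.2 fun a _ => (hwA a).ne'
  have hAM : ∀ a ∈ A, RootOfPower (Nat.card k) a → ∃ v : ℕ, a ^ M = (Nat.card k : ℂ) ^ v := by
    intro a ha hra
    have h1 : wA a ∣ M := by
      rw [hM]
      exact (Finset.dvd_prod_of_mem wA (Multiset.mem_toFinset.2 ha)).trans (dvd_mul_left _ _)
    obtain ⟨t, ht⟩ := h1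
    obtain ⟨v, hv⟩ := hvA a hra
    refine ⟨v * t, ?_⟩
    rw [ht, pow_mul, hv, ← pow_mul]
  -- the exceptional elements
  set C : Finset Zb := (B' + Γ').toFinset.image (fun b => b ^ (r₀ * M)) with hC
  set V : Finset Zb := (C.image (fun c => conjZ c - c)).filter (fun v => v ≠ 0) with hV
  have hV0 : ∀ v ∈ V, v ≠ 0 := fun v hv => (Finset.mem_filter.1 hv).2
  have hfinN : {ℓ : ℕ | ℓ ∣ N}.Finite := by
    apply (Set.finite_Iic N).subset
    intro ℓ hℓ
    exact Nat.le_of_dvd hN hℓ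
  refine ⟨_, (hom_density C V hV0).diff hfinN, ?_⟩
  rintro ℓ ⟨⟨hℓ, R, _, _, ρ, hρC, hρV⟩, hℓN⟩
  have hℓN' : ¬ ℓ ∣ N := hℓN
  have hfact : Fact ℓ.Prime := ⟨hℓ⟩
  refine ⟨hℓ, ?_⟩
  intro n k' _ _ _ hdeg ψ χ hψ hχ1 hχ G hG P hPD hP
  obtain ⟨j, hj⟩ := hdeg
  obtain ⟨hq, P', hPP, hPne, hidR⟩ := reduction hN hF hS hA' hB' hΓ' hℓ ρ hψ hχ1 hχ hG hP
  set r := finrank k k' with hr
  have hfd : Module.Finite k k' := Module.Finite.of_finite
  set q' := Nat.card k' with hq'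
  have hq1 : 1 < q' := Finite.one_lt_card
  have hqr : q' = Nat.card k ^ r := Module.natCard_eq_pow_finrank
  have hψN : ψ ^ N = 1 := by rw [← hψ, pow_orderOf_eq_one]
  have hq'0 : (q' : ℂ) ≠ 0 := by
    have : q' ≠ 0 := by omega
    exact_mod_cast this
  have h := count_zeros (r := r) hM0 hPP hPne hidR
    (P.roots.filter (IsTwistedPower q')) (Multiset.filter_le _ _) ?_
    (RootOfPower (Nat.card k)) RealPower ?_ ?_
  · rw [hA', hB', hΓ'] at h
    exact h
  · -- the zeros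
    intro z hz
    obtain ⟨hzr, w, hw, c, hzw⟩ := Multiset.mem_filter.1 hz
    have hz0 : z ≠ 0 := by
      rintro rfl
      rw [zero_mul, zero_pow hw.ne'] at hzw
      exact zero_ne_one hzw
    refine ⟨hz0, ?_⟩
    set ζ : ℂ := z * (q' : ℂ) ^ c with hζ
    have hint : IsIntegral ℤ ζ⁻¹ := by
      refine IsIntegral.of_pow hw ?_
      rw [inv_pow, hzw, inv_one]
      exact isIntegral_one
    set u : Zb := ⟨ζ⁻¹, hint⟩ with hu
    have hu1 : algebraMap Zb ℂ u = ζ⁻¹ := rfl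
    refine ⟨u * ((q' : ℕ) : Zb) ^ c, ?_, ?_⟩
    · rw [map_mul, hu1, map_pow, map_natCast, hζ, mul_inv, mul_assoc,
        inv_mul_cancel₀ (pow_ne_zero c hq'0), mul_one]
    · have ho : 0 < orderOf ζ := orderOf_pos_iff.2 (isOfFinOrder_iff_pow_eq_one.2 ⟨w, hw, hzw⟩)
      obtain ⟨e, w', hw', how⟩ := Nat.exists_eq_pow_mul_and_not_dvd ho.ne' ℓ hℓ.ne_one
      have hw'0 : 0 < w' := Nat.pos_of_ne_zero (by rintro rfl; exact hw' (dvd_zero _))
      have hprim : IsPrimitiveRoot ζ (w' * ℓ ^ e) := by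
        rw [mul_comm, ← how]
        exact IsPrimitiveRoot.orderOf ζ
      have hzev : P.eval (ζ * ((((q' : ℚ) ^ c)⁻¹ : ℚ) : ℂ)) = 0 := by
        have h1 : ζ * ((((q' : ℚ) ^ c)⁻¹ : ℚ) : ℂ) = z := by
          push_cast
          rw [hζ, mul_assoc, mul_inv_cancel₀ (pow_ne_zero c hq'0), mul_one]
        rw [h1]
        exact (Polynomial.mem_roots'.1 hzr).2
      have hc0 : (((q' : ℚ) ^ c)⁻¹ : ℚ) ≠ 0 := by
        apply inv_ne_zero
        apply pow_ne_zero
        have : q' ≠ 0 := by omega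
        exact_mod_cast this
      have htot := order_bound hN hℓ hℓN' hψN hχ G hP hw'0 hw' hprim _ hc0 hzev
      have hwM : w' ∣ M := by
        rw [hM]
        exact (totient_dvd hw'0 (htot.trans hPD)).trans (dvd_mul_right _ _)
      have hu2 : u ^ (w' * ℓ ^ e) = 1 := by
        apply zb_inj
        rw [map_pow, hu1, map_one, inv_pow, hprim.pow_eq_one, inv_one]
      have hu3 : ρ u ^ w' = 1 := by
        apply eq_one_of_pow (ℓ := ℓ) (m := e)
        rw [← pow_mul, ← map_pow, hu2, map_one]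
      obtain ⟨s, hs⟩ := hwM
      rw [map_mul, map_pow, map_natCast, hq, one_pow, mul_one, hs, pow_mul, hu3, one_pow]
  · -- the numbers in `A`
    intro a ha hra
    have ha' : algebraMap Zb ℂ a ∈ A := by
      rw [← hA']
      exact Multiset.mem_map_of_mem _ ha
    obtain ⟨v, hv⟩ := hAM _ ha' hra
    have h1 : a ^ M = ((Nat.card k : ℕ) : Zb) ^ v := by
      apply zb_inj
      rw [map_pow, hv, map_pow, map_natCast]
    rw [← map_pow, ← pow_mul, mul_comm, pow_mul, h1, ← pow_mul, mul_comm,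
      pow_mul, ← Nat.cast_pow, ← hqr, map_pow, map_natCast, hq, one_pow]
  · -- the numbers in `B` and `Γ`
    intro b hb h1
    obtain ⟨t, ht⟩ := hj
    set c : Zb := b ^ (r₀ * M) with hc
    have hcC : c ∈ C := by
      rw [hC, Finset.mem_image]
      exact ⟨b, Multiset.mem_toFinset.2 hb, rfl⟩
    have h2 : ρ c ^ (ℓ - 1) = 1 := by
      apply eq_one_of_pow (ℓ := ℓ) (m := j)
      have h3 : (ρ c ^ (ℓ - 1)) ^ ℓ ^ j = ((ρ (b ^ r)) ^ M) ^ t := by
        rw [hc, ← map_pow, ← map_pow, ← map_pow, ← map_pow, ← pow_mul, ← pow_mul, ← pow_mul,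
          ← pow_mul]
        congr 2
        calc r₀ * M * ((ℓ - 1) * ℓ ^ j) = (r₀ * (ℓ - 1) * ℓ ^ j) * M := by ring
          _ = r * t * M := by rw [ht]
          _ = r * (M * t) := by ring
      rw [h3, h1, one_pow]
    have h4 : ρ c ^ ℓ = ρ c := by
      have h5 : ρ c ^ ℓ = ρ c ^ (ℓ - 1) * ρ c := by
        rw [← pow_succ, Nat.sub_add_cancel hℓ.one_lt.le]
      rw [h5, h2, one_mul]
    have h6 : ρ (conjZ c - c) = 0 := by
      rw [map_sub, hρC c hcC (conjZ c) rfl, h4, sub_self]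
    have h7 : conjZ c - c = 0 := by
      by_contra hne
      exact hρV _ (Finset.mem_filter.2 ⟨Finset.mem_image.2 ⟨c, hcC, rfl⟩, hne⟩) h6
    have h8 : (starRingEnd ℂ) (c : ℂ) = (c : ℂ) := by
      have := congrArg (fun x : Zb => (x : ℂ)) (sub_eq_zero.1 h7)
      exact this
    refine ⟨r₀ * M, Nat.mul_pos hr₀ (Nat.pos_of_ne_zero hM0), ?_⟩
    have h9 : algebraMap Zb ℂ b ^ (r₀ * M) = (c : ℂ) := by
      rw [hc]
      rfl
    rw [h9]
    exact Complex.conj_eq_iff_im.1 h8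

end Pool.Agent.R413.DT
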