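import Pool.Agent.R413.DT.Count
import Mathlib.FieldTheory.Finite.Extension
import Mathlib.FieldTheory.Finite.GaloisField

/-!
The zeta functions of affine hypersurfaces and the products of characters, from the numbers of points
over the finite extensions.
-/

set_option autoImplicit false
set_option maxHeartbeats 1000000

open Module

namespace Pool.Agent.R413.DT

open Pool.Agent.W313.Hyp (MI MI.deg_pos finite_deg_le)
open Pool.Agent.TH639.SN Pool.Agent.W343.BSD Pool.Agent.Y711

/-- The numbers of the zeros of `F` over all finite extensions of `k` in terms of complex numbers. -/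
def PointFormula {k : Type} [Field k] {m : ℕ} (F : MvPolynomial (Fin m) k) (A B : Multiset ℂ) :
    Prop :=
  ∀ (E : Type) [Field E] [Finite E] [Algebra k E],
    (Nat.card {x : Fin m → E // MvPolynomial.aeval x F = 0} : ℂ) =
      (A.map fun a => a ^ finrank k E).sum - (B.map fun b => b ^ finrank k E).sum

section gh

variable {R : Type} [CommRing R]

theorem gh_zero {s : ℕ → R} {f : PowerSeries R} (h : IsGh s f) : s 0 = 0 := by
  have h1 := ((isGh_iff s f).1 h).2 0
  rw [Nat.cast_zero, zero_mul, Finset.Nat.antidiagonal_zero, Finset.sum_singleton,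
    PowerSeries.coeff_zero_eq_constantCoeff_apply, h.1, one_mul] at h1
  exact h1.symm

theorem gh_unique [IsDomain R] [CharZero R] {s s' : ℕ → R} {f g : PowerSeries R} (hf : IsGh s f)
    (hg : IsGh s' g) (h : ∀ e, e ≠ 0 → s e = s' e) : f = g := by
  have hs : s = s' := by
    funext e
    by_cases he : e = 0
    · rw [he, gh_zero hf, gh_zero hg]
    · exact h e he
  subst hs
  apply Pool.Agent.Y709.Lg.unique (S := -PowerSeries.mk s) _ _ hf.1 hg.1
  · show _ = -(f * -PowerSeries.mk s)
    rw [hf.2]; ring
  · show _ = -(g * -PowerSeries.mk s)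
    rw [hg.2]; ring

theorem gh_congr {s s' : ℕ → R} {f : PowerSeries R} (hf : IsGh s f)
    (h : ∀ e, e ≠ 0 → s e = s' e) (h0 : s' 0 = 0) : IsGh s' f := by
  have hs : s = s' := by
    funext e
    by_cases he : e = 0
    · rw [he, gh_zero hf, h0]
    · exact h e he
  rwa [← hs]

/-- The product of the `1 - a X`. -/
noncomputable def prodOne (A : Multiset R) : PowerSeries R :=
  (A.map fun a => 1 - PowerSeries.C a * PowerSeries.X).prod

theorem gh_one (a : R) : IsGh (fun e => if e = 0 then 0 else -a ^ e)
    (1 - PowerSeries.C a * PowerSeries.X) := by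
  have h := isGh_factor a (d := 1) one_ne_zero
  rw [pow_one] at h
  refine gh_congr h (fun e he => ?_) (if_pos rfl)
  rw [if_pos ⟨he, one_dvd e⟩, if_neg he, Nat.cast_one, one_mul, Nat.div_one]

theorem gh_prodOne (A : Multiset R) :
    IsGh (fun e => if e = 0 then 0 else -(A.map fun a => a ^ e).sum) (prodOne A) := by
  unfold prodOne
  induction A using Multiset.induction_on with
  | empty =>
    rw [Multiset.map_zero, Multiset.prod_zero]
    refine gh_congr isGh_one (fun e he => ?_) (if_pos rfl)
    rw [if_neg he, Multiset.map_zero, Multiset.sum_zero, neg_zero]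
    rfl
  | cons a A ih =>
    rw [Multiset.map_cons, Multiset.prod_cons]
    refine gh_congr ((gh_one a).mul ih) (fun e he => ?_) (if_pos rfl)
    rw [Pi.add_apply, if_neg he, if_neg he, if_neg he, Multiset.map_cons, Multiset.sum_cons]
    ring

end gh

section weight

variable {F : Type} [Field F] [Finite F] {R : Type} [CommRing R] {m : ℕ}

/-- the Euler product of a weight -/
theorem isGh_weight (G : MvPolynomial (Fin m) F) (W : F → R)
    (hW : ∀ (u : F) (j : ℕ), j ≠ 0 → W (u ^ j) = W u ^ j) :
    IsGh (fun e => if e = 0 then 0 else -cnt m F G W e)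
      (eulerProd (fun z : SpacePt m F => deg m F z)
        (fun z => 1 - PowerSeries.C (W (normValue m F G z)) * PowerSeries.X ^ deg m F z)) := by
  have h1 := isGh_euler (R := R) (d := fun z : SpacePt m F => deg m F z) (finite_le m F)
    (F := fun z => 1 - PowerSeries.C (W (normValue m F G z)) * PowerSeries.X ^ deg m F z)
    (s := fun z e => if e ≠ 0 ∧ deg m F z ∣ e then
      -((deg m F z : R) * W (normValue m F G z) ^ (e / deg m F z)) else 0)
    (fun z => isGh_factor _ (deg_pos m F z).ne')
    (fun z => by
      rw [sub_right_comm, sub_self, zero_sub, dvd_neg]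
      exact dvd_mul_left _ _)
    (by
      intro z e he
      rw [if_neg]
      rintro ⟨h1, h2⟩
      exact absurd (Nat.le_of_dvd (Nat.pos_of_ne_zero h1) h2) (not_le.2 he))
  refine gh_congr h1 (fun e he => ?_) (if_pos rfl)
  rw [if_neg he]
  unfold cnt
  rw [← Finset.sum_neg_distrib]
  refine Finset.sum_congr rfl fun z _ => ?_
  by_cases hd : deg m F z ∣ e
  · have hq : e / deg m F z ≠ 0 := by
      have := Nat.div_pos (Nat.le_of_dvd (Nat.pos_of_ne_zero he) hd) (deg_pos m F z)
      omega
    rw [if_pos ⟨he, hd⟩, if_pos hd, nsmul_eq_mul, hW _ _ hq]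
  · rw [if_neg (fun h => hd h.2), if_neg hd, neg_zero]

open Classical in
theorem zetaInv_eq (G : MvPolynomial (Fin m) F) :
    PowerSeries.map (Int.castRingHom R) (zetaInv m G) =
      eulerProd (fun z : SpacePt m F => deg m F z)
        (fun z => 1 - PowerSeries.C (if normValue m F G z = 0 then (1 : R) else 0) *
          PowerSeries.X ^ deg m F z) := by
  have h1 : zetaInv m G = eulerProd (fun z : SpacePt m F => deg m F z)
      (fun z => if normValue m F G z = 0 then 1 - PowerSeries.X ^ deg m F z else 1) :=
    Pool.Agent.W313.Hyp.eulerProd_subtype (fun z : SpacePt m F => normValue m F G z = 0) (finite_le m F)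
      (f := fun z => (1 - PowerSeries.X ^ deg m F z : PowerSeries ℤ))
      (fun z _ => Pool.Agent.TH639.SC.one_sub_mod le_rfl)
  rw [h1, map_eulerProd (finite_le m F)]
  congr 1
  funext z
  split_ifs with h
  · rw [map_sub, map_one, map_pow, PowerSeries.map_X, PowerSeries.C.map_one, one_mul]
  · rw [map_one, PowerSeries.C.map_zero, zero_mul, sub_zero]

end weight

section points

variable {F : Type} [Field F] [Finite F] {m : ℕ}

/-- the finite extension of given degree -/
theorem exists_ext (F : Type) [Field F] [Finite F] {e : ℕ} (he : e ≠ 0) :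
    ∃ (E : Type) (_ : Field E) (_ : Finite E) (_ : Algebra F E), finrank F E = e := by
  obtain ⟨p, hp⟩ := CharP.exists F
  have hpf : Fact p.Prime := ⟨CharP.char_is_prime F p⟩
  have he' : NeZero e := ⟨he⟩
  exact ⟨FiniteField.Extension F p e, inferInstance, inferInstance, inferInstance,
    FiniteField.finrank_extension F p e⟩

open Classical in
theorem cnt_zero (G : MvPolynomial (Fin m) F) (E : Type) [Field E] [Finite E] [Algebra F E]
    {R : Type} [CommRing R] :
    cnt m F G (fun u : F => if u = 0 then (1 : R) else 0) (finrank F E) =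
      (Nat.card {x : Fin m → E // MvPolynomial.aeval x G = 0} : R) := by
  have : Fintype E := Fintype.ofFinite E
  have hfd : Module.Finite F E := Module.Finite.of_finite
  rw [← sum_points m F E _ rfl G, Nat.card_eq_fintype_card, Fintype.card_subtype,
    Finset.card_filter]
  push_cast
  refine Finset.sum_congr rfl fun x _ => ?_
  simp only [Algebra.norm_eq_zero_iff]

/-- **The zeta function from the numbers of points.** -/
theorem zeta_formula (G : MvPolynomial (Fin m) F) {A B : Multiset ℂ} (h : PointFormula G A B) :
    PowerSeries.map (Int.castRingHom ℂ) (zetaInv m G) * prodOne B = prodOne A := by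
  classical
  rw [zetaInv_eq]
  refine gh_unique ((isGh_weight G (fun u : F => if u = 0 then (1 : ℂ) else 0) ?_).mul
    (gh_prodOne B)) (gh_prodOne A) ?_
  · intro u j hj
    by_cases hu : u = 0
    · rw [hu, zero_pow hj, if_pos rfl, one_pow]
    · rw [if_neg hu, if_neg (pow_ne_zero j hu), zero_pow hj]
  · intro e he
    obtain ⟨E, _, _, _, hE⟩ := exists_ext F he
    rw [Pi.add_apply, if_neg he, if_neg he, if_neg he]
    have h1 := h E
    rw [← hE, cnt_zero G E, h1]
    ring

/-- the formula over an extension -/
theorem PointFormula.ext {k : Type} [Field k] [Finite k] {F : MvPolynomial (Fin m) k}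
    {A B : Multiset ℂ} (h : PointFormula F A B) {k' : Type} [Field k'] [Finite k'] [Algebra k k']
    {G : MvPolynomial (Fin m) k'}
    (hG : ∀ (E : Type) [Field E] [Finite E] [Algebra k' E] [Algebra k E] [IsScalarTower k k' E],
      Nat.card {x : Fin m → E // MvPolynomial.aeval x G = 0} =
        Nat.card {x : Fin m → E // MvPolynomial.aeval x F = 0}) :
    PointFormula G (A.map fun a => a ^ finrank k k') (B.map fun b => b ^ finrank k k') := by
  intro E _ _ _
  let _ : Algebra k E := ((algebraMap k' E).comp (algebraMap k k')).toAlgebra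
  have : IsScalarTower k k' E := IsScalarTower.of_algebraMap_eq fun _ => rfl
  have h1 : Module.Finite k k' := Module.Finite.of_finite
  have h2 : Module.Finite k' E := Module.Finite.of_finite
  rw [hG E, h E, ← Module.finrank_mul_finrank k k' E, Multiset.map_map, Multiset.map_map]
  congr 2
  · refine Multiset.map_congr rfl fun a _ => ?_
    rw [Function.comp_apply, pow_mul]
  · refine Multiset.map_congr rfl fun a _ => ?_
    rw [Function.comp_apply, pow_mul]

end points

end Pool.Agent.R413.DT
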